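import Pool.Agent.Lib.MP_d8f801_lc.SC.H.HBasic
import Pool.Agent.Lib.MP_d8f801_lc.Basics

/-!
# SCH-Abs1: absoluteness of the basic notions for `H_θ`

Unfold; all sets that occur are elements of elements of `H_θ` (`H.mem_trans`, `H_pair_left`, `H_pair_right`) or
pairs of elements (`H.pair`, `H.upair`). E.g. `a_app`: a pair `pair a b ∈ f` is in `H_θ`. `a_funOn`: the value `b` of `f` at `a` is in
`H_θ` since `pair a b ∈ f`. Use `z_pair` etc. to reduce the right sides, and `a_pair`.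
-/

set_option autoImplicit false

namespace Pool.MP_d8f801_lc.SC

open Cardinal Ordinal Set FirstOrder
open Pool.Agent.Lib.MP_4d8715_gt.KR

variable {θ : Cardinal.{0}}

theorem a_sub (x y : ↥(H θ)) : Kr.Sub hmem x y ↔ Kr.Sub zmem x.1 y.1 := by
  constructor
  · intro h z hz
    exact h ⟨z, H.mem_trans x.2 hz⟩ hz
  · intro h z hz
    exact h z.1 hz
theorem a_emp (x : ↥(H θ)) : Kr.Emp hmem x ↔ Kr.Emp zmem x.1 := by
  constructor
  · intro h z hz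
    exact h ⟨z, H.mem_trans x.2 hz⟩ hz
  · intro h z hz
    exact h z.1 hz
theorem a_upair (p a b : ↥(H θ)) : Kr.UPair hmem p a b ↔ Kr.UPair zmem p.1 a.1 b.1 := by
  rw [z_upair]
  exact pUp_iff p a b
theorem a_pair (hθ : Lg θ) (p a b : ↥(H θ)) : Kr.Pair hmem p a b ↔ Kr.Pair zmem p.1 a.1 b.1 := by
  constructor
  · rintro ⟨u, v, hu, hv, hp⟩
    exact ⟨u.1, v.1, (a_upair u a a).mp hu, (a_upair v a b).mp hv, (a_upair p u v).mp hp⟩
  · rintro ⟨u, v, hu, hv, hp⟩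
    rw [z_upair] at hu hv
    have hu' : u ∈ H θ := by
      rw [hu]
      exact H.upair hθ.1 a.2 a.2
    have hv' : v ∈ H θ := by
      rw [hv]
      exact H.upair hθ.1 a.2 b.2
    exact ⟨⟨u, hu'⟩, ⟨v, hv'⟩, (a_upair ⟨u, hu'⟩ a a).mpr (z_upair.mpr hu),
      (a_upair ⟨v, hv'⟩ a b).mpr (z_upair.mpr hv), (a_upair p ⟨u, hu'⟩ ⟨v, hv'⟩).mpr hp⟩
theorem a_app (hθ : Lg θ) (f a b : ↥(H θ)) : Kr.App hmem f a b ↔ Kr.App zmem f.1 a.1 b.1 := by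
  constructor
  · rintro ⟨p, hp, hf⟩
    exact ⟨p.1, (a_pair hθ p a b).mp hp, hf⟩
  · rintro ⟨p, hp, hf⟩
    have hp' : p ∈ H θ := H.mem_trans f.2 hf
    exact ⟨⟨p, hp'⟩, (a_pair hθ ⟨p, hp'⟩ a b).mpr hp, hf⟩
theorem a_app2 (hθ : Lg θ) (f a b c : ↥(H θ)) :
    Kr.App2 hmem f a b c ↔ Kr.App2 zmem f.1 a.1 b.1 c.1 := by
  constructor
  · rintro ⟨p, hp, hf⟩
    exact ⟨p.1, (a_pair hθ p a b).mp hp, (a_app hθ f p c).mp hf⟩
  · rintro ⟨p, hp, hf⟩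
    have hp' : p ∈ H θ := by
      rw [z_pair.mp hp]
      exact H.pair hθ.1 a.2 b.2
    exact ⟨⟨p, hp'⟩, (a_pair hθ ⟨p, hp'⟩ a b).mpr hp, (a_app hθ f ⟨p, hp'⟩ c).mpr hf⟩
theorem a_suc (y x : ↥(H θ)) : Kr.Suc hmem y x ↔ Kr.Suc zmem y.1 x.1 := by
  constructor
  · intro h z
    constructor
    · intro hz
      rcases (h ⟨z, H.mem_trans y.2 hz⟩).mp hz with h1 | h1
      · exact Or.inl h1
      · exact Or.inr (congrArg Subtype.val h1)
    · rintro (hz | rfl)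
      · exact (h ⟨z, H.mem_trans x.2 hz⟩).mpr (Or.inl hz)
      · exact (h x).mpr (Or.inr rfl)
  · intro h z
    refine (h z.1).trans (or_congr Iff.rfl ?_)
    rw [Subtype.ext_iff]
theorem a_funOn (hθ : Lg θ) (f d : ↥(H θ)) : Kr.FunOn hmem f d ↔ Kr.FunOn zmem f.1 d.1 := by
  constructor
  · rintro ⟨h1, h2⟩
    refine ⟨?_, ?_⟩
    · intro p hp
      obtain ⟨a, b, ha, hpair⟩ := h1 ⟨p, H.mem_trans f.2 hp⟩ hp
      exact ⟨a.1, b.1, ha, (a_pair hθ _ a b).mp hpair⟩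
    · intro a ha
      have ha' : a ∈ H θ := H.mem_trans d.2 ha
      obtain ⟨b, hb⟩ := h2 ⟨a, ha'⟩ ha
      refine ⟨b.1, ?_⟩
      intro c
      constructor
      · intro hc
        have hc' : c ∈ H θ := H_pair_right (H.mem_trans f.2 (z_app.mp hc))
        exact congrArg Subtype.val ((hb ⟨c, hc'⟩).mp ((a_app hθ f ⟨a, ha'⟩ ⟨c, hc'⟩).mpr hc))
      · rintro rfl
        exact (a_app hθ f ⟨a, ha'⟩ b).mp ((hb b).mpr rfl)
  · rintro ⟨h1, h2⟩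
    refine ⟨?_, ?_⟩
    · intro p hp
      obtain ⟨a, b, ha, hpair⟩ := h1 p.1 hp
      have ha' : a ∈ H θ := H.mem_trans d.2 ha
      have hb' : b ∈ H θ := by
        have h3 := p.2
        rw [z_pair.mp hpair] at h3
        exact H_pair_right h3
      exact ⟨⟨a, ha'⟩, ⟨b, hb'⟩, ha, (a_pair hθ p ⟨a, ha'⟩ ⟨b, hb'⟩).mpr hpair⟩
    · intro a ha
      obtain ⟨b, hb⟩ := h2 a.1 ha
      have hb' : b ∈ H θ := H_pair_right (H.mem_trans f.2 (z_app.mp ((hb b).mpr rfl)))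
      refine ⟨⟨b, hb'⟩, ?_⟩
      intro c
      rw [a_app hθ f a c, hb c.1, Subtype.ext_iff]
theorem a_funTo (hθ : Lg θ) (f d r : ↥(H θ)) :
    Kr.FunTo hmem f d r ↔ Kr.FunTo zmem f.1 d.1 r.1 := by
  refine and_congr (a_funOn hθ f d) ?_
  constructor
  · intro h a b hab
    have hp := H.mem_trans f.2 (z_app.mp hab)
    exact h ⟨a, H_pair_left hp⟩ ⟨b, H_pair_right hp⟩
      ((a_app hθ f ⟨a, H_pair_left hp⟩ ⟨b, H_pair_right hp⟩).mpr hab)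
  · intro h a b hab
    exact h a.1 b.1 ((a_app hθ f a b).mp hab)
theorem a_binop (hθ : Lg θ) (Z Φ : ↥(H θ)) : Kr.BinOp hmem Z Φ ↔ Kr.BinOp zmem Z.1 Φ.1 := by
  constructor
  · intro h a b ha hb
    have ha' : a ∈ H θ := H.mem_trans Z.2 ha
    have hb' : b ∈ H θ := H.mem_trans Z.2 hb
    obtain ⟨c, hc, hcd⟩ := h ⟨a, ha'⟩ ⟨b, hb'⟩ ha hb
    refine ⟨c.1, hc, ?_⟩
    intro d
    constructor
    · intro hd
      have hd' : d ∈ H θ := H_pair_right (H.mem_trans Φ.2 (z_app2.mp hd))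
      exact congrArg Subtype.val
        ((hcd ⟨d, hd'⟩).mp ((a_app2 hθ Φ ⟨a, ha'⟩ ⟨b, hb'⟩ ⟨d, hd'⟩).mpr hd))
    · rintro rfl
      exact (a_app2 hθ Φ ⟨a, ha'⟩ ⟨b, hb'⟩ c).mp ((hcd c).mpr rfl)
  · intro h a b ha hb
    obtain ⟨c, hc, hcd⟩ := h a.1 b.1 ha hb
    refine ⟨⟨c, H.mem_trans Z.2 hc⟩, hc, ?_⟩
    intro d
    rw [a_app2 hθ Φ a b d, hcd d.1, Subtype.ext_iff]
private theorem a_trans (x : ↥(H θ)) : Sc.Trans hmem x ↔ Sc.Trans zmem x.1 := by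
  constructor
  · intro h y z hy hz
    have hy' : y ∈ H θ := H.mem_trans x.2 hy
    exact h ⟨y, hy'⟩ ⟨z, H.mem_trans hy' hz⟩ hy hz
  · intro h y z hy hz
    exact h y.1 z.1 hy hz
theorem a_ord (x : ↥(H θ)) : Sc.Ord hmem x ↔ Sc.Ord zmem x.1 := by
  refine and_congr (a_trans x) ?_
  constructor
  · intro h y hy
    exact (a_trans ⟨y, H.mem_trans x.2 hy⟩).mp (h ⟨y, H.mem_trans x.2 hy⟩ hy)
  · intro h y hy
    exact (a_trans y).mpr (h y.1 hy)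

/-- `Kr.App hmem` is the relation `PIn` of `Formula.lean` -/
theorem app_pin (hθ : Lg θ) (f a b : ↥(H θ)) : Kr.App hmem f a b ↔ PIn f a b := by
  rw [a_app hθ f a b, z_app, pIn_iff hθ.1]

end Pool.MP_d8f801_lc.SC
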