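import Pool.Agent.Lib.MP_d8f801_lc.SC.H.Abs1

/-!
# SCH-Abs2: absoluteness of the parameters for `H_θ`

`a_cov`: `→` is `a_funOn`, `a_app`. `←`: if `b = ∅`, take `gr a (fun _ => ∅)`; otherwise `cov_to` and `gr`; these graphs are in
`H θ` by `gr_mem_H`. `a_omega`: `Kr.Ind` is absolute (`H_empty`, `H_suc`); a set `w` with `Kr.Omega hmem w` is inductive,
so contains `zw` (`zw_ind`), and is contained in the inductive set `zw ∈ H θ`. The rest follows.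
-/

set_option autoImplicit false

namespace Pool.MP_d8f801_lc.SC

open Cardinal Ordinal Set FirstOrder
open Pool.Agent.Lib.MP_4d8715_gt.KR

variable {θ : Cardinal.{0}}

theorem a_cov (hθ : Lg θ) (a b : ↥(H θ)) : Sc.Cov hmem a b ↔ Sc.Cov zmem a.1 b.1 := by
  constructor
  · rintro ⟨f, hf, h⟩
    refine ⟨f.1, (a_funOn hθ f a).mp hf, ?_⟩
    intro z hz
    obtain ⟨i, hi, hfi⟩ := h ⟨z, H.mem_trans b.2 hz⟩ hz
    exact ⟨i.1, hi, (a_app hθ f i ⟨z, H.mem_trans b.2 hz⟩).mp hfi⟩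
  · intro h
    by_cases hb : b.1 = ∅
    · have hg : gr a.1 (fun _ => ∅) ∈ H θ :=
        gr_mem_H (A := a.1) (g := fun _ => ∅) hθ.1 a.2 (fun _ _ => H_empty hθ)
      refine ⟨⟨gr a.1 (fun _ => ∅), hg⟩, (a_funOn hθ ⟨gr a.1 (fun _ => ∅), hg⟩ a).mpr
        (gr_funOn (A := a.1) (g := fun _ => ∅)), ?_⟩
      intro z hz
      have hz' : z.1 ∈ b.1 := hz
      rw [hb] at hz'
      exact absurd hz' (ZFSet.notMem_empty _)
    · obtain ⟨g, hg1, hg2⟩ := cov_to h hb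
      have hg : gr a.1 g ∈ H θ :=
        gr_mem_H (A := a.1) (g := g) hθ.1 a.2 (fun x hx => H.mem_trans b.2 (hg1 x hx))
      refine ⟨⟨gr a.1 g, hg⟩, (a_funOn hθ ⟨gr a.1 g, hg⟩ a).mpr
        (gr_funOn (A := a.1) (g := g)), ?_⟩
      intro z hz
      obtain ⟨x, hx, hxz⟩ := hg2 z.1 hz
      refine ⟨⟨x, H.mem_trans a.2 hx⟩, hx, ?_⟩
      refine (a_app hθ ⟨gr a.1 g, hg⟩ ⟨x, H.mem_trans a.2 hx⟩ z).mpr (z_app.mpr ?_)
      exact (pair_mem_gr (A := a.1) (g := g)).mpr ⟨hx, hxz.symm⟩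
theorem a_ind (hθ : Lg θ) (w : ↥(H θ)) : Kr.Ind hmem w ↔ Kr.Ind zmem w.1 := by
  constructor
  · rintro ⟨h1, h2⟩
    refine ⟨?_, ?_⟩
    · intro o ho
      have ho' : o = ∅ := z_emp.mp ho
      subst ho'
      exact h1 ⟨∅, H_empty hθ⟩ ((a_emp ⟨∅, H_empty hθ⟩).mpr ho)
    · intro x y hx hy
      have hx' : x ∈ H θ := H.mem_trans w.2 hx
      have hy' : y ∈ H θ := by
        rw [z_suc.mp hy]
        exact H_suc hθ hx'
      exact h2 ⟨x, hx'⟩ ⟨y, hy'⟩ hx ((a_suc ⟨y, hy'⟩ ⟨x, hx'⟩).mpr hy)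
  · rintro ⟨h1, h2⟩
    refine ⟨?_, ?_⟩
    · intro o ho
      exact h1 o.1 ((a_emp o).mp ho)
    · intro x y hx hy
      exact h2 x.1 y.1 hx ((a_suc y x).mp hy)
theorem a_omega (hθ : Lg θ) (w : ↥(H θ)) : Kr.Omega hmem w ↔ Kr.Omega zmem w.1 := by
  constructor
  · rintro ⟨h1, h2⟩
    have h1' : Kr.Ind zmem w.1 := (a_ind hθ w).mp h1
    rw [z_omega]
    apply ZFSet.ext
    intro z
    constructor
    · intro hz
      have hi : Kr.Ind hmem (⟨zw, H_zw hθ⟩ : ↥(H θ)) :=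
        (a_ind hθ ⟨zw, H_zw hθ⟩).mpr (z_ind.mpr ⟨empty_mem_zw, fun x hx => suc_mem_zw hx⟩)
      exact (a_sub w ⟨zw, H_zw hθ⟩).mp (h2 ⟨zw, H_zw hθ⟩ hi) z hz
    · intro hz
      have h3 := z_ind.mp h1'
      exact zw_ind (P := fun x => x ∈ w.1) h3.1 (fun x _ hx => h3.2 x hx) hz
  · rintro ⟨h1, h2⟩
    refine ⟨(a_ind hθ w).mpr h1, ?_⟩
    intro w' hw'
    exact (a_sub w w').mpr (h2 w'.1 ((a_ind hθ w').mp hw'))
theorem a_omega1 (hθ : Lg θ) (w o : ↥(H θ)) : Sc.Omega1 hmem w o ↔ Sc.Omega1 zmem w.1 o.1 := by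
  refine and_congr (a_ord o) (and_congr (not_congr (a_cov hθ w o)) ?_)
  constructor
  · intro h x hx
    exact (a_cov hθ w ⟨x, H.mem_trans o.2 hx⟩).mp (h ⟨x, H.mem_trans o.2 hx⟩ hx)
  · intro h x hx
    exact (a_cov hθ w x).mpr (h x.1 hx)
theorem a_omega2 (hθ : Lg θ) (o k : ↥(H θ)) : Sc.Omega2 hmem o k ↔ Sc.Omega2 zmem o.1 k.1 := by
  refine and_congr (a_ord k) (and_congr (not_congr (a_cov hθ o k)) ?_)
  constructor
  · intro h x hx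
    exact (a_cov hθ o ⟨x, H.mem_trans k.2 hx⟩).mp (h ⟨x, H.mem_trans k.2 hx⟩ hx)
  · intro h x hx
    exact (a_cov hθ o x).mpr (h x.1 hx)
theorem a_par (hθ : Lg θ) (w o k e : ↥(H θ)) :
    Sc.Par hmem w o k e ↔ Sc.Par zmem w.1 o.1 k.1 e.1 :=
  and_congr (a_omega hθ w) (and_congr (a_omega1 hθ w o) (and_congr (a_omega2 hθ o k) (a_emp e)))

end Pool.MP_d8f801_lc.SC
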