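import Pool.Agent.Lib.MP_d8f801_lc.SC.H.Abs2

/-!
# SCH-Abs3: absoluteness of the instances and of the body of `Sc.Club`

`a_enum`: a function from `k` to `k` is in `H θ` (`funTo_mem_H`). `a_val`: if `App h ξ f`, `App f γ v` then `ξ, f, v` are in `H θ`.
In the instances the quantifiers are bounded (by `k`, `o`, or by `Val`). `a_cl`: the variables are in `N ⊆ Z`, `Z ∈ H θ`, or in `o`.
`a_wit`: `N ⊆ Z ∈ H θ` gives `N ∈ H θ` (`H_subset`, `z_sub`).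
-/

set_option autoImplicit false

namespace Pool.MP_d8f801_lc.SC

open Cardinal Ordinal Set FirstOrder
open Pool.Agent.Lib.MP_4d8715_gt.KR

variable {θ : Cardinal.{0}}

private theorem abs3_app_H {h ξ f : ZFSet.{0}} (hh : h ∈ H θ) (ha : Kr.App zmem h ξ f) :
    ξ ∈ H θ ∧ f ∈ H θ := by
  have hp : ZFSet.pair ξ f ∈ H θ := H.mem_trans hh (z_app.1 ha)
  exact ⟨H_pair_left hp, H_pair_right hp⟩

/-- bounded existential quantifiers -/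
private theorem abs3_ex {k : ↥(H θ)} {P : ↥(H θ) → Prop} {Q : ZFSet.{0} → Prop}
    (hPQ : ∀ x : ↥(H θ), P x ↔ Q x.1) : (∃ x : ↥(H θ), hmem x k ∧ P x) ↔ ∃ x, zmem x k.1 ∧ Q x := by
  constructor
  · rintro ⟨x, hx, hP⟩
    exact ⟨x.1, hx, (hPQ x).1 hP⟩
  · rintro ⟨x, hx, hQ⟩
    exact ⟨⟨x, H.mem_trans k.2 hx⟩, hx, (hPQ ⟨x, H.mem_trans k.2 hx⟩).2 hQ⟩

/-- bounded universal quantifiers -/
private theorem abs3_all {k : ↥(H θ)} {P : ↥(H θ) → Prop} {Q : ZFSet.{0} → Prop}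
    (hPQ : ∀ x : ↥(H θ), P x ↔ Q x.1) : (∀ x : ↥(H θ), hmem x k → P x) ↔ ∀ x, zmem x k.1 → Q x := by
  constructor
  · intro h x hx
    exact (hPQ ⟨x, H.mem_trans k.2 hx⟩).1 (h ⟨x, H.mem_trans k.2 hx⟩ hx)
  · intro h x hx
    exact (hPQ x).2 (h x.1 hx)

theorem a_enum (hθ : Lg θ) (k Z h : ↥(H θ)) : Sc.Enum hmem k Z h ↔ Sc.Enum zmem k.1 Z.1 h.1 := by
  constructor
  · rintro ⟨h1, h2, h3⟩
    refine ⟨(a_funOn hθ h Z).1 h1, ?_, ?_⟩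
    · intro ξ f ha
      obtain ⟨hξ, hf⟩ := abs3_app_H h.2 ha
      exact (a_funTo hθ ⟨f, hf⟩ k k).1 (h2 ⟨ξ, hξ⟩ ⟨f, hf⟩ ((a_app hθ h ⟨ξ, hξ⟩ ⟨f, hf⟩).2 ha))
    · intro f hf
      have hfH : f ∈ H θ := funTo_mem_H hθ k.2 k.2 hf
      obtain ⟨ξ, hξ, ha⟩ := h3 ⟨f, hfH⟩ ((a_funTo hθ ⟨f, hfH⟩ k k).2 hf)
      exact ⟨ξ.1, hξ, (a_app hθ h ξ ⟨f, hfH⟩).1 ha⟩
  · rintro ⟨h1, h2, h3⟩
    refine ⟨(a_funOn hθ h Z).2 h1, ?_, ?_⟩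
    · intro ξ f ha
      exact (a_funTo hθ f k k).2 (h2 ξ.1 f.1 ((a_app hθ h ξ f).1 ha))
    · intro f hf
      obtain ⟨ξ, hξ, ha⟩ := h3 f.1 ((a_funTo hθ f k k).1 hf)
      obtain ⟨hξH, -⟩ := abs3_app_H h.2 ha
      exact ⟨⟨ξ, hξH⟩, hξ, (a_app hθ h ⟨ξ, hξH⟩ f).2 ha⟩

theorem a_val (hθ : Lg θ) (h N γ v : ↥(H θ)) :
    Sc.Val hmem h N γ v ↔ Sc.Val zmem h.1 N.1 γ.1 v.1 := by
  constructor
  · rintro ⟨ξ, f, h1, h2, h3⟩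
    exact ⟨ξ.1, f.1, h1, (a_app hθ _ _ _).1 h2, (a_app hθ _ _ _).1 h3⟩
  · rintro ⟨ξ, f, h1, h2, h3⟩
    obtain ⟨hξ, hf⟩ := abs3_app_H h.2 h2
    exact ⟨⟨ξ, hξ⟩, ⟨f, hf⟩, h1, (a_app hθ h ⟨ξ, hξ⟩ ⟨f, hf⟩).2 h2, (a_app hθ ⟨f, hf⟩ γ v).2 h3⟩

/-- the values are in `H θ` -/
theorem val_mem_H {h N γ v : ZFSet.{0}} (hh : h ∈ H θ) (hv : Sc.Val zmem h N γ v) : v ∈ H θ := by
  obtain ⟨ξ, f, h1, h2, h3⟩ := hv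
  exact (abs3_app_H (abs3_app_H hh h2).2 h3).2

theorem a_pres (hθ : Lg θ) (o e h N γ : ↥(H θ)) :
    Sc.Pres hmem o e h N γ ↔ Sc.Pres zmem o.1 e.1 h.1 N.1 γ.1 :=
  abs3_all (Q := fun v => Sc.Val zmem h.1 N.1 γ.1 v ↔ Sc.Val zmem h.1 N.1 e.1 v)
    fun v => iff_congr (a_val hθ h N γ v) (a_val hθ h N e v)

theorem a_atScc (hθ : Lg θ) (o k e h N : ↥(H θ)) :
    Sc.AtScc hmem o k e h N ↔ Sc.AtScc zmem o.1 k.1 e.1 h.1 N.1 :=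
  abs3_ex (Q := fun γ => ¬ Sc.Val zmem h.1 N.1 e.1 γ ∧ Sc.Pres zmem o.1 e.1 h.1 N.1 γ)
    fun γ => and_congr (not_congr (a_val hθ h N e γ)) (a_pres hθ o e h N γ)

theorem a_atCof (hθ : Lg θ) (o k e h N : ↥(H θ)) :
    Sc.AtCof hmem o k e h N ↔ Sc.AtCof zmem o.1 k.1 e.1 h.1 N.1 :=
  abs3_all (Q := fun β => ∃ γ, zmem γ k.1 ∧ ¬ zmem γ β ∧ Sc.Pres zmem o.1 e.1 h.1 N.1 γ)
    fun β => abs3_ex (Q := fun γ => ¬ zmem γ β.1 ∧ Sc.Pres zmem o.1 e.1 h.1 N.1 γ)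
      fun γ => and_congr Iff.rfl (a_pres hθ o e h N γ)

/-- existential quantifiers over the values -/
private theorem abs3_exval (hθ : Lg θ) (h N γ γ' : ↥(H θ)) :
    (∃ v, Sc.Val hmem h N γ v ∧ ¬ Sc.Val hmem h N γ' v) ↔
      ∃ v, Sc.Val zmem h.1 N.1 γ.1 v ∧ ¬ Sc.Val zmem h.1 N.1 γ'.1 v := by
  constructor
  · rintro ⟨v, h1, h2⟩
    exact ⟨v.1, (a_val hθ _ _ _ _).1 h1, fun h3 => h2 ((a_val hθ _ _ _ _).2 h3)⟩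
  · rintro ⟨v, h1, h2⟩
    have hv : v ∈ H θ := val_mem_H h.2 h1
    exact ⟨⟨v, hv⟩, (a_val hθ h N γ ⟨v, hv⟩).2 h1, fun h3 => h2 ((a_val hθ h N γ' ⟨v, hv⟩).1 h3)⟩

theorem a_atSplit (hθ : Lg θ) (o k e h N : ↥(H θ)) :
    Sc.AtSplit hmem o k e h N ↔ Sc.AtSplit zmem o.1 k.1 e.1 h.1 N.1 := by
  constructor
  · rintro ⟨γ, γ', h1, h2, h3, h4, h5, h6⟩
    exact ⟨γ.1, γ'.1, h1, h2, (a_pres hθ _ _ _ _ _).1 h3, (a_pres hθ _ _ _ _ _).1 h4,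
      (abs3_exval hθ h N γ γ').1 h5, (abs3_exval hθ h N γ' γ).1 h6⟩
  · rintro ⟨γ, γ', h1, h2, h3, h4, h5, h6⟩
    have g1 : γ ∈ H θ := H.mem_trans k.2 h1
    have g2 : γ' ∈ H θ := H.mem_trans k.2 h2
    exact ⟨⟨γ, g1⟩, ⟨γ', g2⟩, h1, h2, (a_pres hθ o e h N ⟨γ, g1⟩).2 h3, (a_pres hθ o e h N ⟨γ', g2⟩).2 h4,
      (abs3_exval hθ h N ⟨γ, g1⟩ ⟨γ', g2⟩).2 h5, (abs3_exval hθ h N ⟨γ', g2⟩ ⟨γ, g1⟩).2 h6⟩

theorem a_cl (hθ : Lg θ) (w o e Z h Φ N : ↥(H θ)) :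
    Sc.Cl hmem w o e Z h Φ N ↔ Sc.Cl zmem w.1 o.1 e.1 Z.1 h.1 Φ.1 N.1 := by
  refine and_congr (a_sub N Z) (and_congr (a_sub w N) (and_congr (a_cov hθ w N) (and_congr ?_ ?_)))
  · constructor
    · intro hc x y z hx hy hxyz
      have hx' : x ∈ H θ := H.mem_trans N.2 hx
      have hy' : y ∈ H θ := H.mem_trans N.2 hy
      have hz' : z ∈ H θ := H_pair_right (H.mem_trans Φ.2 (z_app2.1 hxyz))
      exact hc ⟨x, hx'⟩ ⟨y, hy'⟩ ⟨z, hz'⟩ hx hy ((a_app2 hθ Φ ⟨x, hx'⟩ ⟨y, hy'⟩ ⟨z, hz'⟩).2 hxyz)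
    · intro hc x y z hx hy hxyz
      exact hc x.1 y.1 z.1 hx hy ((a_app2 hθ Φ x y z).1 hxyz)
  · constructor
    · intro hc v u hv hval hu
      have hv' : v ∈ H θ := H.mem_trans o.2 hv
      have hu' : u ∈ H θ := H.mem_trans hv' hu
      exact (a_val hθ h N e ⟨u, hu'⟩).1 (hc ⟨v, hv'⟩ ⟨u, hu'⟩ hv ((a_val hθ h N e ⟨v, hv'⟩).2 hval) hu)
    · intro hc v u hv hval hu
      exact (a_val hθ h N e u).2 (hc v.1 u.1 hv ((a_val hθ h N e v).1 hval) hu)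

theorem a_wit (i : Inst) (hθ : Lg θ) (w o k e Z h Φ : ↥(H θ)) :
    Wit hmem (i.A hmem) w o k e Z h Φ ↔ Wit zmem (i.A zmem) w.1 o.1 k.1 e.1 Z.1 h.1 Φ.1 := by
  refine and_congr (a_par hθ w o k e) (and_congr (a_sub w Z) (and_congr (a_enum hθ k Z h)
    (and_congr (a_binop hθ Z Φ) ?_)))
  constructor
  · intro hc N hN
    have hN' : N ∈ H θ := H_subset Z.2 (z_sub.1 hN.1)
    exact (i.abs hθ o k e h ⟨N, hN'⟩).1 (hc ⟨N, hN'⟩ ((a_cl hθ w o e Z h Φ ⟨N, hN'⟩).2 hN))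
  · intro hc N hN
    exact (i.abs hθ o k e h N).2 (hc N.1 ((a_cl hθ w o e Z h Φ N).1 hN))

end Pool.MP_d8f801_lc.SC
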