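import Pool.Agent.Lib.MP_d8f801_lc.SC.H.TVx

/-!
# SCH-Build: functions which are definable over an elementary submodel belong to it

The set `G = {(ν, y) : ν ∈ K, S x ν y}`: it is a subset of the graph of a function on `K` (`gr K.1 g` with
`g ν = ` the `y` with `S x ν y` if there is one, `∅` otherwise), so it is in `H θ` (`gr_mem_H`, `H_subset`). It is the only
element of `H θ` with the property `∀ p, p ∈ G ↔ ∃ ν y, POp p ν y ∧ ν ∈ K ∧ S x ν y` (`H.ext`), and this property is definable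
with the parameters `x, K` (`dfn_op`, `Dfn.mem`, `dfn_relabel`), so `G ∈ M` (`tv_uniq`).
-/

set_option autoImplicit false

namespace Pool.MP_d8f801_lc.SC

open Cardinal Ordinal Set FirstOrder
open Pool.Agent.Lib.MP_4d8715_gt.KR

variable {θ : Cardinal.{0}} {Δ : ↥(H θ) → ↥(H θ) → Prop} {M : Set ↥(H θ)}

private def BQ {n : ℕ} (S : (Fin (n + 2) → ↥(H θ)) → Prop) (x : Fin n → ↥(H θ)) (K G : ↥(H θ)) :
    Prop :=
  ∀ p : ↥(H θ), p.1 ∈ G.1 ↔ ∃ ν y : ↥(H θ), POp p ν y ∧ ν.1 ∈ K.1 ∧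
      S (Fin.snoc (Fin.snoc x ν : Fin (n + 1) → ↥(H θ)) y)

private theorem dfn_BQ {n : ℕ} {S : (Fin (n + 2) → ↥(H θ)) → Prop} (hS : Dfn Δ S) :
    Dfn Δ (fun xs : Fin (n + 2) → ↥(H θ) =>
      BQ S (fun i : Fin n => xs i.castSucc.castSucc) (xs (Fin.last n).castSucc)
        (xs (Fin.last (n + 1)))) := by
  unfold BQ
  refine (Dfn.all (P := fun ys : Fin (n + 3) → ↥(H θ) =>
    ((ys (Fin.last (n + 2))).1 ∈ (ys (Fin.last (n + 1)).castSucc).1 ↔
      ∃ ν y : ↥(H θ), POp (ys (Fin.last (n + 2))) ν y ∧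
        ν.1 ∈ (ys (Fin.last n).castSucc.castSucc).1 ∧
        S (Fin.snoc (Fin.snoc (fun i : Fin n => ys i.castSucc.castSucc.castSucc) ν :
          Fin (n + 1) → ↥(H θ)) y))) ?_).congr ?_
  · refine (Dfn.mem _ _).iff ?_
    refine (Dfn.ex (P := fun zs : Fin (n + 4) → ↥(H θ) =>
      ∃ y : ↥(H θ), POp (zs (Fin.last (n + 2)).castSucc) (zs (Fin.last (n + 3))) y ∧
        (zs (Fin.last (n + 3))).1 ∈ (zs (Fin.last n).castSucc.castSucc.castSucc).1 ∧
        S (Fin.snoc (Fin.snoc (fun i : Fin n => zs i.castSucc.castSucc.castSucc.castSucc)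
          (zs (Fin.last (n + 3))) : Fin (n + 1) → ↥(H θ)) y)) ?_).congr ?_
    · refine (Dfn.ex (P := fun us : Fin (n + 5) → ↥(H θ) =>
        POp (us (Fin.last (n + 2)).castSucc.castSucc) (us (Fin.last (n + 3)).castSucc)
            (us (Fin.last (n + 4))) ∧
          (us (Fin.last (n + 3)).castSucc).1 ∈
            (us (Fin.last n).castSucc.castSucc.castSucc.castSucc).1 ∧
          S (us ∘ (Fin.snoc (Fin.snoc (fun i : Fin n =>
            i.castSucc.castSucc.castSucc.castSucc.castSucc) (Fin.last (n + 3)).castSucc :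
              Fin (n + 1) → Fin (n + 5)) (Fin.last (n + 4)) : Fin (n + 2) → Fin (n + 5)))) ?_).congr ?_
      · exact (dfn_op _ _ _).and ((Dfn.mem _ _).and (dfn_relabel hS _))
      · intro xs
        have key : ∀ a : ↥(H θ), (Fin.snoc xs a : Fin (n + 5) → ↥(H θ)) ∘
            (Fin.snoc (Fin.snoc (fun i : Fin n =>
              i.castSucc.castSucc.castSucc.castSucc.castSucc) (Fin.last (n + 3)).castSucc :
              Fin (n + 1) → Fin (n + 5)) (Fin.last (n + 4)) : Fin (n + 2) → Fin (n + 5)) =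
            Fin.snoc (Fin.snoc (fun i : Fin n => xs i.castSucc.castSucc.castSucc.castSucc)
              (xs (Fin.last (n + 3))) : Fin (n + 1) → ↥(H θ)) a := by
          intro a
          funext i
          refine Fin.lastCases ?_ (fun i => ?_) i
          · simp only [Function.comp_apply, Fin.snoc_last]
          · refine Fin.lastCases ?_ (fun i => ?_) i
            · simp only [Function.comp_apply, Fin.snoc_last, Fin.snoc_castSucc]
            · simp only [Function.comp_apply, Fin.snoc_castSucc]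
        simp only [key, Fin.snoc_last, Fin.snoc_castSucc]
    · intro xs
      simp only [Fin.snoc_last, Fin.snoc_castSucc]
  · intro xs
    simp only [Fin.snoc_last, Fin.snoc_castSucc]

theorem tv_build (hθ : Lg θ) (h : TV Δ M) {n : ℕ} {S : (Fin (n + 2) → ↥(H θ)) → Prop}
    (hS : Dfn Δ S) (x : Fin n → ↥(H θ)) (hx : ∀ i, x i ∈ M) (K : ↥(H θ)) (hK : K ∈ M)
    (hfun : ∀ ν y y' : ↥(H θ), ν.1 ∈ K.1 →
      S (Fin.snoc (Fin.snoc x ν : Fin (n + 1) → ↥(H θ)) y) →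
      S (Fin.snoc (Fin.snoc x ν : Fin (n + 1) → ↥(H θ)) y') → y = y') :
    ∃ G ∈ M, ∀ p : ↥(H θ), p.1 ∈ G.1 ↔ ∃ ν y : ↥(H θ), p.1 = ZFSet.pair ν.1 y.1 ∧ ν.1 ∈ K.1 ∧
      S (Fin.snoc (Fin.snoc x ν : Fin (n + 1) → ↥(H θ)) y) := by
  classical
  let g : ZFSet.{0} → ZFSet.{0} := fun a =>
    if hh : ∃ y : ↥(H θ), ∃ ν : ↥(H θ), ν.1 = a ∧
      S (Fin.snoc (Fin.snoc x ν : Fin (n + 1) → ↥(H θ)) y) then (Classical.choose hh).1 else ∅
  have hgH : ∀ a ∈ K.1, g a ∈ H θ := by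
    intro a _
    by_cases hh : ∃ y : ↥(H θ), ∃ ν : ↥(H θ), ν.1 = a ∧
      S (Fin.snoc (Fin.snoc x ν : Fin (n + 1) → ↥(H θ)) y)
    · simp only [g, dif_pos hh]
      exact (Classical.choose hh).2
    · simp only [g, dif_neg hh]
      exact H_empty hθ
  have hgS : ∀ ν y : ↥(H θ), ν.1 ∈ K.1 →
      S (Fin.snoc (Fin.snoc x ν : Fin (n + 1) → ↥(H θ)) y) → g ν.1 = y.1 := by
    intro ν y hν hs
    have hh : ∃ y : ↥(H θ), ∃ ν' : ↥(H θ), ν'.1 = ν.1 ∧
      S (Fin.snoc (Fin.snoc x ν' : Fin (n + 1) → ↥(H θ)) y) := ⟨y, ν, rfl, hs⟩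
    simp only [g, dif_pos hh]
    obtain ⟨ν', h1, h2⟩ := Classical.choose_spec hh
    have h3 : ν' = ν := Subtype.ext h1
    rw [h3] at h2
    exact congrArg Subtype.val (hfun ν _ _ hν h2 hs)
  let G0 : ZFSet.{0} := ZFSet.sep (fun p => ∃ ν y : ↥(H θ), p = ZFSet.pair ν.1 y.1 ∧ ν.1 ∈ K.1 ∧
      S (Fin.snoc (Fin.snoc x ν : Fin (n + 1) → ↥(H θ)) y)) (gr K.1 g)
  have hG0 : ∀ p : ZFSet.{0}, p ∈ G0 ↔ ∃ ν y : ↥(H θ), p = ZFSet.pair ν.1 y.1 ∧ ν.1 ∈ K.1 ∧
      S (Fin.snoc (Fin.snoc x ν : Fin (n + 1) → ↥(H θ)) y) := by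
    intro p
    simp only [G0, ZFSet.mem_sep]
    constructor
    · exact fun hh => hh.2
    · intro hh
      refine ⟨?_, hh⟩
      obtain ⟨ν, y, hp, hν, hs⟩ := hh
      rw [mem_gr]
      exact ⟨ν.1, hν, by rw [hp, hgS ν y hν hs]⟩
  have hG0H : G0 ∈ H θ := by
    refine H_subset (gr_mem_H hθ.1 K.2 hgH) ?_
    intro p hp
    simp only [G0, ZFSet.mem_sep] at hp
    exact hp.1
  have hmem : (⟨G0, hG0H⟩ : ↥(H θ)) ∈ M := by
    have hx' : ∀ i, (Fin.snoc x K : Fin (n + 1) → ↥(H θ)) i ∈ M := by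
      intro i
      refine Fin.lastCases ?_ (fun i => ?_) i
      · rw [Fin.snoc_last]; exact hK
      · rw [Fin.snoc_castSucc]; exact hx i
    refine tv_uniq h (dfn_BQ hS) (Fin.snoc x K : Fin (n + 1) → ↥(H θ)) hx' ?_ ?_
    · simp only [Fin.snoc_last, Fin.snoc_castSucc]
      intro p
      rw [hG0]
      simp only [pOp_iff hθ.1]
    · intro b hb
      simp only [Fin.snoc_last, Fin.snoc_castSucc] at hb
      apply H.ext
      intro p
      rw [hb p, hG0]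
      simp only [pOp_iff hθ.1]
  refine ⟨_, hmem, ?_⟩
  intro p
  exact hG0 p.1

end Pool.MP_d8f801_lc.SC
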