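import Pool.Agent.Lib.MP_d8f801_lc.SC.H.HBasic
import Pool.Agent.Lib.MP_d8f801_lc.Basics

/-!
# SCH-Skol: one binary operation coding the Skolem functions

There are countably many pairs `(n, φ)`, `φ : L.BoundedFormula Empty (n + 1)` (enumerate them: `φ_i`, `i : ℕ`). Let `t_i = pair i i` for
`i ∈ ω` (`i` the von Neumann number). No natural number is of the form `pair j j = {{j}}`. For `y ∈ H θ` let `y° = pair 1 (pair 0 y)`, it is no `t_i`.
The code of a tuple: `code [] = ∅`, `code (x :: l) = pair x° (code l)`.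
Definition of `φ x y`: if `x = t_i` then `G_i y`, otherwise `pair x y`, where `G_0 y = y°` and `G_{i+1} y = ` some `b` with
`Rz Δ φ_i (snoc x b)` if `y` is the code of the tuple `x` of the right length and there is such a `b`, and `∅` otherwise.
If `N` contains the natural numbers and is closed under `φ` then `t_i = φ i i ∈ N`, `y° = φ t_0 y ∈ N`, the codes of tuples from `N`
are in `N`, and the values of the Skolem functions are in `N`. `pair x y ∈ H θ` by `H.pair`.
-/

set_option autoImplicit false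

namespace Pool.MP_d8f801_lc.SC

open Cardinal Ordinal Set FirstOrder
open Pool.Agent.Lib.MP_4d8715_gt.KR

private theorem skol_countable_rel : Countable (Σ n, L.Relations n) := by
  let f : Bool → Σ n, L.Relations n := fun b =>
    if b then (⟨2, Rel.mem⟩ : Σ n, Rel n) else (⟨2, Rel.lt⟩ : Σ n, Rel n)
  refine Function.Surjective.countable (f := f) ?_
  rintro ⟨n, r⟩
  cases r with
  | mem => exact ⟨true, rfl⟩
  | lt => exact ⟨false, rfl⟩

private theorem skol_countable_fun : Countable (Σ n, L.Functions n) := by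
  have : IsEmpty (Σ n, L.Functions n) := ⟨fun p => Empty.elim p.2⟩
  infer_instance

private theorem skol_countable :
    Countable (Σ n : ℕ, L.BoundedFormula Empty (n + 1)) := by
  have := skol_countable_rel
  have := skol_countable_fun
  have : Countable L.Symbols := by
    unfold FirstOrder.Language.Symbols
    infer_instance
  refine Function.Injective.countable
    (f := fun p : (Σ n : ℕ, L.BoundedFormula Empty (n + 1)) =>
      (⟨p.1 + 1, p.2⟩ : Σ n, L.BoundedFormula Empty n)) ?_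
  rintro ⟨n, a⟩ ⟨m, b⟩ h
  simp only [Sigma.mk.injEq] at h
  obtain ⟨h1, h2⟩ := h
  have h3 : n = m := by omega
  subst h3
  simpa using h2

private theorem skol_enum :
    ∃ e : ℕ → (Σ n : ℕ, L.BoundedFormula Empty (n + 1)), Function.Surjective e := by
  have := skol_countable
  have : Nonempty (Σ n : ℕ, L.BoundedFormula Empty (n + 1)) := ⟨⟨0, ⊥⟩⟩
  exact exists_surjective_nat _

/-- pairs -/
private noncomputable def skP {θ : Cardinal.{0}} (hθ : Lg θ) (x y : ↥(H θ)) : ↥(H θ) :=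
  ⟨ZFSet.pair x.1 y.1, H.pair hθ.1 x.2 y.2⟩

private theorem skP_inj {θ : Cardinal.{0}} (hθ : Lg θ) {x y x' y' : ↥(H θ)}
    (h : skP hθ x y = skP hθ x' y') : x = x' ∧ y = y' := by
  have h1 := congrArg Subtype.val h
  simp only [skP, ZFSet.pair_inj] at h1
  exact ⟨Subtype.ext h1.1, Subtype.ext h1.2⟩

/-- naturals -/
private noncomputable def skN {θ : Cardinal.{0}} (hθ : Lg θ) (i : ℕ) : ↥(H θ) :=
  ⟨((i : Ordinal.{0})).toZFSet, H.ord (by
    rw [Ordinal.card_nat]
    exact hθ.1.nat_lt i)⟩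

private theorem skN_mem {θ : Cardinal.{0}} (hθ : Lg θ) (i : ℕ) : (skN hθ i).1 ∈ zw := by
  unfold skN zw
  exact Ordinal.toZFSet_mem_toZFSet_iff.mpr (Ordinal.natCast_lt_omega0 i)

private theorem skN_inj {θ : Cardinal.{0}} (hθ : Lg θ) {i j : ℕ} (h : skN hθ i = skN hθ j) :
    i = j := by
  have h1 := congrArg Subtype.val h
  have h2 := Ordinal.toZFSet_injective h1
  exact_mod_cast h2

private theorem pair_ne_nat {a b : ZFSet.{0}} {i : ℕ} :
    ZFSet.pair a b ≠ ((i : Ordinal.{0})).toZFSet := by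
  intro h
  have h1 : ({a} : ZFSet.{0}) ∈ ZFSet.pair a b := by
    rw [ZFSet.pair, ZFSet.mem_pair]
    exact Or.inl rfl
  have hi : (0 : Ordinal.{0}) < (i : Ordinal.{0}) := by
    refine pos_iff_ne_zero.mpr ?_
    intro h0
    rw [h, h0, Ordinal.toZFSet_zero] at h1
    exact ZFSet.notMem_empty _ h1
  have h2 : (∅ : ZFSet.{0}) ∈ ZFSet.pair a b := by
    rw [h, ← Ordinal.toZFSet_zero]
    exact Ordinal.toZFSet_mem_toZFSet_iff.mpr hi
  rw [ZFSet.pair, ZFSet.mem_pair] at h2
  rcases h2 with h2 | h2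
  · have h3 : a ∈ ({a} : ZFSet.{0}) := ZFSet.mem_singleton.mpr rfl
    rw [← h2] at h3
    exact ZFSet.notMem_empty _ h3
  · have h3 : a ∈ ({a, b} : ZFSet.{0}) := ZFSet.mem_pair.mpr (Or.inl rfl)
    rw [← h2] at h3
    exact ZFSet.notMem_empty _ h3

private theorem skP_ne_skN {θ : Cardinal.{0}} (hθ : Lg θ) (x y : ↥(H θ)) (i : ℕ) :
    skP hθ x y ≠ skN hθ i := by
  intro h
  exact pair_ne_nat (congrArg Subtype.val h)

/-- the tags -/
private noncomputable def skT {θ : Cardinal.{0}} (hθ : Lg θ) (i : ℕ) : ↥(H θ) :=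
  skP hθ (skN hθ i) (skN hθ i)

/-- `y°` -/
private noncomputable def skO {θ : Cardinal.{0}} (hθ : Lg θ) (y : ↥(H θ)) : ↥(H θ) :=
  skP hθ (skN hθ 1) (skP hθ (skN hθ 0) y)

private theorem skT_inj {θ : Cardinal.{0}} (hθ : Lg θ) {i j : ℕ} (h : skT hθ i = skT hθ j) :
    i = j := skN_inj hθ (skP_inj hθ h).1

private theorem skO_ne {θ : Cardinal.{0}} (hθ : Lg θ) (y : ↥(H θ)) (i : ℕ) :
    skO hθ y ≠ skT hθ i := by
  intro h
  exact skP_ne_skN hθ _ _ _ (skP_inj hθ h).2

private theorem skN_ne {θ : Cardinal.{0}} (hθ : Lg θ) (i j : ℕ) :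
    skN hθ i ≠ skT hθ j := fun h => skP_ne_skN hθ _ _ _ h.symm

/-- the codes of tuples -/
private noncomputable def skC {θ : Cardinal.{0}} (hθ : Lg θ) : List ↥(H θ) → ↥(H θ)
  | [] => skN hθ 0
  | x :: l => skP hθ (skO hθ x) (skC hθ l)

private theorem skC_inj {θ : Cardinal.{0}} (hθ : Lg θ) :
    ∀ l l' : List ↥(H θ), skC hθ l = skC hθ l' → l = l'
  | [], [], _ => rfl
  | [], x :: l, h => absurd h.symm (skP_ne_skN hθ _ _ _)
  | x :: l, [], h => absurd h (skP_ne_skN hθ _ _ _)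
  | x :: l, x' :: l', h => by
    have h1 := skP_inj hθ h
    have h2 := (skP_inj hθ (skP_inj hθ h1.1).2).2
    have h3 := skC_inj hθ l l' h1.2
    rw [h2, h3]

/-- the witness relation -/
private def skW {θ : Cardinal.{0}} (hθ : Lg θ) (Δ : ↥(H θ) → ↥(H θ) → Prop)
    (p : Σ n : ℕ, L.BoundedFormula Empty (n + 1)) (y b : ↥(H θ)) : Prop :=
  ∃ x : Fin p.1 → ↥(H θ), y = skC hθ (List.ofFn x) ∧ Rz Δ p.2 (Fin.snoc x b)

open Classical in
theorem exists_skolem {θ : Cardinal.{0}} (hθ : Lg θ) (Δ : ↥(H θ) → ↥(H θ) → Prop) :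
    ∃ φ : ↥(H θ) → ↥(H θ) → ↥(H θ), ∀ N : Set ↥(H θ), (∀ x : ↥(H θ), x.1 ∈ zw → x ∈ N) →
      (∀ x ∈ N, ∀ y ∈ N, φ x y ∈ N) → TV Δ N := by
  obtain ⟨e, he⟩ := skol_enum
  let G : ℕ → ↥(H θ) → ↥(H θ) := fun i y =>
    match i with
    | 0 => skO hθ y
    | i + 1 => if h : ∃ b, skW hθ Δ (e i) y b then Classical.choose h else skN hθ 0
  let φ : ↥(H θ) → ↥(H θ) → ↥(H θ) := fun x y =>
    if h : ∃ i, x = skT hθ i then G (Classical.choose h) y else skP hθ x y
  have hφT : ∀ i y, φ (skT hθ i) y = G i y := by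
    intro i y
    have h : ∃ j, skT hθ i = skT hθ j := ⟨i, rfl⟩
    have h1 : φ (skT hθ i) y = G (Classical.choose h) y := dif_pos h
    rw [h1, ← skT_inj hθ (Classical.choose_spec h)]
  have hφP : ∀ x y, (∀ i, x ≠ skT hθ i) → φ x y = skP hθ x y := by
    intro x y hx
    exact dif_neg (fun ⟨i, hi⟩ => hx i hi)
  refine ⟨φ, fun N hN hcl => ?_⟩
  have hnat : ∀ i, skN hθ i ∈ N := fun i => hN _ (skN_mem hθ i)
  have hT : ∀ i, skT hθ i ∈ N := by
    intro i
    have h := hcl _ (hnat i) _ (hnat i)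
    rwa [hφP _ _ (fun j => skN_ne hθ i j)] at h
  have hO : ∀ y ∈ N, skO hθ y ∈ N := by
    intro y hy
    have h := hcl _ (hT 0) _ hy
    rwa [hφT] at h
  have hC : ∀ l : List ↥(H θ), (∀ x ∈ l, x ∈ N) → skC hθ l ∈ N := by
    intro l
    induction l with
    | nil => intro _; exact hnat 0
    | cons x l ih =>
      intro hl
      have h1 := hO x (hl x (List.mem_cons_self))
      have h2 := ih (fun z hz => hl z (List.mem_cons_of_mem _ hz))
      have h3 := hcl _ h1 _ h2
      rwa [hφP _ _ (fun j => skO_ne hθ x j)] at h3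
  intro n ψ x hx a ha
  obtain ⟨i, hi⟩ := he ⟨n, ψ⟩
  have hy : skC hθ (List.ofFn x) ∈ N := by
    refine hC _ ?_
    intro z hz
    rw [List.mem_ofFn] at hz
    obtain ⟨j, rfl⟩ := hz
    exact hx j
  have hex : ∃ b, skW hθ Δ (e i) (skC hθ (List.ofFn x)) b := by
    rw [hi]
    exact ⟨a, x, rfl, ha⟩
  have hb := hcl _ (hT (i + 1)) _ hy
  rw [hφT] at hb
  have hG : G (i + 1) (skC hθ (List.ofFn x)) = Classical.choose hex := dif_pos hex
  rw [hG] at hb
  refine ⟨_, hb, ?_⟩
  have hs := Classical.choose_spec hex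
  generalize Classical.choose hex = b at hs
  rw [hi] at hs
  obtain ⟨x', h1, h2⟩ := hs
  have h3 := skC_inj hθ _ _ h1
  have h4 : x = x' := List.ofFn_injective h3
  rw [h4]
  exact h2

end Pool.MP_d8f801_lc.SC
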