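import Pool.Agent.Lib.MP_d8f801_lc.SC.H.Trace
import Pool.Agent.Lib.MP_d8f801_lc.SC.H.Skol

/-!
# SCH-Bwd: from the `H_θ` form to the club form

Let `θ₀` be as in `ForLarge`, `θ = succ (max θ₀ (ℵ_ 2))` (regular, `Lg θ`), `Δ` any wellorder of `H θ` (`WellOrderingRel`), `φ` from
`exists_skolem`, `Z` from `exists_Hset`, `Φ` from `exists_binop` (applied to `φ` extended by `∅` outside `H θ`), and
`h = gr Z (fun x => if Kr.FunTo zmem x zk zk then x else gr zk (fun _ => ∅))`. `Par`: `z_par`. `Enum`: a function from `zk` to `zk`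
is in `H θ` (`funTo_mem_H`), so in `Z`. Let `Cl zmem zw zo ∅ Z h Φ N`, `M = {x | x.1 ∈ N}`. Then `TV Δ M` by `exists_skolem`, `M` is
countable (`z_cov`), `Sc.Val zmem h N g v ↔ valM M g v` (the constant function with value `∅` is in `M` by `tv_const`, `tv_empty`), and the
last condition of `Cl` with `valM_bot` says that `tr M ω₁` is an initial segment; it is countable, so it is `Iio δ` with `δ < ω₁`
(take `δ = sInf (tr M ω₁)ᶜ`). So `Good Δ M`, `i.I (valM M)`, and `i.congr`, `i.hI` give the claim.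
-/

set_option autoImplicit false

namespace Pool.MP_d8f801_lc.SC

open Cardinal Ordinal Set FirstOrder
open Pool.Agent.Lib.MP_4d8715_gt.KR

/-- a countable initial segment of `ω₁` -/
private theorem Bwd_seg {T : Set Ordinal.{0}} (hT : T.Countable)
    (hseg : ∀ α ∈ T, ∀ β < α, β ∈ T) : ∃ δ < ω₁, T = Iio δ := by
  have hunc : ¬ (Iio (ω₁ : Ordinal.{0})).Countable := by
    intro hc
    have h1 := Cardinal.le_aleph0_iff_set_countable.2 hc
    rw [Cardinal.mk_Iio_ordinal, Ordinal.card_omega, Cardinal.lift_aleph,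
      ← Cardinal.aleph_zero, Cardinal.aleph_le_aleph] at h1
    simp at h1
  have hne : (Tᶜ).Nonempty := by
    by_contra hcon
    rw [not_nonempty_iff_eq_empty, compl_empty_iff] at hcon
    rw [hcon] at hT
    exact hunc (hT.mono (subset_univ _))
  have h1 : sInf Tᶜ ∈ Tᶜ := csInf_mem hne
  have h2 : T = Iio (sInf Tᶜ) := by
    ext α
    constructor
    · intro hα
      by_contra hcon
      have h3 : sInf Tᶜ ≤ α := not_lt.1 hcon
      rcases h3.eq_or_lt with h4 | h4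
      · exact h1 (by rw [h4]; exact hα)
      · exact h1 (hseg α hα _ h4)
    · intro hα
      by_contra hcon
      have h3 : sInf Tᶜ ≤ α := csInf_le' hcon
      exact absurd hα (not_lt.2 h3)
  refine ⟨sInf Tᶜ, ?_, h2⟩
  by_contra hcon
  have h3 : Iio (ω₁ : Ordinal.{0}) ⊆ T := by
    rw [h2]
    exact Iio_subset_Iio (not_lt.1 hcon)
  exact hunc (hT.mono h3)

theorem bwd (i : Inst)
    (h : ForLarge (fun {θ} (_ : ↥(H θ) → ↥(H θ) → Prop) (M : Set ↥(H θ)) => i.I (valM M))) :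
    Sc.Club zmem (i.A zmem) := by
  classical
  obtain ⟨θ₀, h0⟩ := h
  obtain ⟨θ, hreg, hθ0, hθ⟩ : ∃ θ : Cardinal.{0}, θ.IsRegular ∧ θ₀ ≤ θ ∧ Lg θ := by
    have hreg : (Order.succ (max θ₀ (ℵ_ 2))).IsRegular :=
      Cardinal.isRegular_succ ((Cardinal.aleph0_le_aleph 2).trans (le_max_right _ _))
    exact ⟨_, hreg, (le_max_left _ _).trans (Order.le_succ _), hreg,
      (le_max_right _ _).trans_lt (Order.lt_succ _)⟩
  obtain ⟨Δ, hΔ⟩ : ∃ Δ : ↥(H θ) → ↥(H θ) → Prop, IsWellOrder ↥(H θ) Δ :=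
    ⟨WellOrderingRel, WellOrderingRel.isWellOrder⟩
  obtain ⟨φ, hφ⟩ := exists_skolem hθ Δ
  obtain ⟨Z, hZ⟩ := exists_Hset θ
  obtain ⟨ψ, hψ⟩ : ∃ ψ : ZFSet.{0} → ZFSet.{0} → ZFSet.{0},
      ∀ x y : ↥(H θ), ψ x.1 y.1 = (φ x y).1 := by
    refine ⟨fun x y => if hx : x ∈ H θ then if hy : y ∈ H θ then (φ ⟨x, hx⟩ ⟨y, hy⟩).1 else ∅ else ∅,
      fun x y => ?_⟩
    simp only [x.2, y.2, dite_true]
  obtain ⟨Φ, hΦ1, hΦ2⟩ := exists_binop Z ψ (by
    intro x hx y hy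
    rw [hZ] at hx hy ⊢
    have h1 := hψ ⟨x, hx⟩ ⟨y, hy⟩
    simp only at h1
    rw [h1]
    exact (φ _ _).2)
  obtain ⟨g, hg1, hg2⟩ : ∃ g : ZFSet.{0} → ZFSet.{0},
      (∀ x, Kr.FunTo zmem x zk zk → g x = x) ∧
      ∀ x, ¬ Kr.FunTo zmem x zk zk → g x = gr zk (fun _ => ∅) :=
    ⟨fun x => if Kr.FunTo zmem x zk zk then x else gr zk (fun _ => ∅),
      fun x hx => if_pos hx, fun x hx => if_neg hx⟩
  have hconst : Kr.FunTo zmem (gr zk (fun _ => ∅)) zk zk := gr_funTo fun _ _ => empty_mem_zk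
  refine ⟨zw, zo, zk, ∅, Z, gr Z g, Φ, z_par.2 ⟨rfl, rfl, rfl, rfl⟩, ?_, ⟨gr_funOn, ?_, ?_⟩, hΦ1,
    ?_⟩
  · intro z hz
    exact (hZ z).2 (H.mem_trans (H_zw hθ) hz)
  · intro ξ f hf
    rw [z_app, pair_mem_gr] at hf
    rw [hf.2]
    by_cases hξ : Kr.FunTo zmem ξ zk zk
    · rw [hg1 ξ hξ]
      exact hξ
    · rw [hg2 ξ hξ]
      exact hconst
  · intro f hf
    have hfZ : f ∈ Z := (hZ f).2 (funTo_mem_H hθ (H_zk hθ) (H_zk hθ) hf)
    refine ⟨f, hfZ, ?_⟩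
    rw [z_app, pair_mem_gr]
    exact ⟨hfZ, (hg1 f hf).symm⟩
  · rintro N ⟨hNZ, hwN, hcov, hcl, hseg⟩
    have hNH : ∀ x ∈ N, x ∈ H θ := fun x hx => (hZ x).1 (hNZ x hx)
    obtain ⟨M, hM⟩ : ∃ M : Set ↥(H θ), ∀ x : ↥(H θ), x ∈ M ↔ x.1 ∈ N := ⟨{x | x.1 ∈ N}, fun x => Iff.rfl⟩
    have hTV : TV Δ M := by
      refine hφ M (fun x hx => (hM x).2 (hwN x.1 hx)) fun x hx y hy => ?_
      rw [hM] at hx hy ⊢
      refine hcl x.1 y.1 _ hx hy ?_
      rw [hΦ2 _ _ _ (hNZ _ hx) (hNZ _ hy)]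
      exact (hψ x y).symm
    have hcount : M.Countable := by
      rw [z_cov] at hcov
      have h1 : #↥N ≤ ℵ₀ := by
        rw [ZFSet.cardinalMk_coe_sort]
        have h2 : N.card ≤ ℵ₀ := by
          refine hcov.trans ?_
          rw [zw, Ordinal.card_toZFSet, Ordinal.card_omega0]
        exact (Cardinal.lift_le.2 h2).trans (by rw [Cardinal.lift_aleph0])
      have h3 : Countable ↥N := Cardinal.mk_le_aleph0_iff.1 h1
      have h4 : Function.Injective (fun x : ↥M => (⟨x.1.1, (hM x.1).1 x.2⟩ : ↥N)) := by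
        intro x y hxy
        have := congrArg Subtype.val hxy
        exact Subtype.ext (Subtype.ext this)
      exact h4.countable
    have hval : ∀ γ v : ZFSet.{0}, Sc.Val zmem (gr Z g) N γ v ↔ valM M γ v := by
      intro γ v
      constructor
      · rintro ⟨ξ, f, hξ, hf, hv⟩
        rw [z_app, pair_mem_gr] at hf
        rw [z_app] at hv
        obtain ⟨-, rfl⟩ := hf
        by_cases hξf : Kr.FunTo zmem ξ zk zk
        · rw [hg1 ξ hξf] at hv
          exact ⟨⟨ξ, hNH ξ hξ⟩, (hM _).2 hξ, hξf, hv⟩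
        · rw [hg2 ξ hξf] at hv
          obtain ⟨F, hF, hFe⟩ := tv_const hθ hTV (tv_empty hθ hTV)
          refine ⟨F, hF, ?_, ?_⟩
          · rw [hFe]
            exact hconst
          · rw [hFe]
            exact hv
      · rintro ⟨f, hf, hf1, hf2⟩
        have hfN : f.1 ∈ N := (hM f).1 hf
        refine ⟨f.1, f.1, hfN, ?_, z_app.2 hf2⟩
        rw [z_app, pair_mem_gr]
        exact ⟨hNZ _ hfN, (hg1 f.1 hf1).symm⟩
    have hω12 : (ω₁ : Ordinal.{0}) < ω_ 2 := by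
      rw [Ordinal.omega_lt_omega]
      exact one_lt_two
    have hTc : (tr M ω₁).Countable := by
      refine (hcount.image (fun x : ↥(H θ) => x.1.rank)).mono ?_
      rintro α ⟨-, x, hx, hxα⟩
      refine ⟨x, hx, ?_⟩
      simp only
      rw [hxα, Ordinal.rank_toZFSet]
    have hTseg : ∀ α ∈ tr M ω₁, ∀ β < α, β ∈ tr M ω₁ := by
      rintro α ⟨hα, hαM⟩ β hβ
      have h1 : Sc.Val zmem (gr Z g) N ∅ α.toZFSet := by
        rw [hval, valM_bot hθ hTV]
        exact ⟨α, ⟨hα.trans hω12, hαM⟩, rfl⟩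
      have h2 := hseg α.toZFSet β.toZFSet (mem_zo.2 ⟨α, hα, rfl⟩) h1
        (Ordinal.toZFSet_mem_toZFSet_iff.2 hβ)
      rw [hval, valM_bot hθ hTV] at h2
      obtain ⟨β', ⟨-, hβM⟩, hββ⟩ := h2
      have h3 : β = β' := Ordinal.toZFSet_injective hββ
      subst h3
      exact ⟨hβ.trans hα, hβM⟩
    obtain ⟨δ, hδ, hTδ⟩ := Bwd_seg hTc hTseg
    have hI := h0 θ hθ0 hreg Δ hΔ M ⟨hTV.elem, hcount, δ, hδ, hTδ⟩
    rw [i.hI]
    exact (i.congr _ _ fun γ _ v => hval γ v).2 hI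

end Pool.MP_d8f801_lc.SC
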