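import Pool.Agent.Lib.MP_d8f801_lc.SC.H.Trace

/-!
# SCH-ClN: the trace `N = M ∩ Z` of a good model

`mem_trN`. `val_trN`: `→`: `ξ ∈ N` is in `M`, `h ∈ M`, so the value `f` of `h` at `ξ` is in `M` (`tv_app`, `fun_uniq`), and `f` is a function
from `zk` to `zk` by `Enum`. `←`: by `Enum` there is `ξ ∈ Z` with `pair ξ f ∈ h`; by `TV.dfn2` applied to
`ξ ∈ Z` and `(ξ, f) ∈ h` (parameters `Z, h, f` in `M`, use `TV.dfn3`, `Dfn.mem`, `dfn_in`) we may take `ξ ∈ M`.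
`cl_trN`: `zw ⊆ N` by `tv_nat` and the hypothesis `zw ⊆ Z`; `Cov`: `z_cov`, `N` is countable (`zw.card = ℵ₀`); closure under `Φ`:
`tv_app2`; the last condition: `val_trN`, `valM_bot` and `tr M ω₁ = Iio δ`.
-/

set_option autoImplicit false

namespace Pool.MP_d8f801_lc.SC

open Cardinal Ordinal Set FirstOrder
open Pool.Agent.Lib.MP_4d8715_gt.KR

variable {θ : Cardinal.{0}} {Δ : ↥(H θ) → ↥(H θ) → Prop} {M : Set ↥(H θ)}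

/-- `M ∩ Z` as a set -/
noncomputable def trN (M : Set ↥(H θ)) (Z : ZFSet.{0}) : ZFSet.{0} :=
  ZFSet.sep (fun x => ∃ hx : x ∈ H θ, (⟨x, hx⟩ : ↥(H θ)) ∈ M) Z

private theorem cln_mem {Z x : ZFSet.{0}} :
    x ∈ trN M Z ↔ x ∈ Z ∧ ∃ hx : x ∈ H θ, (⟨x, hx⟩ : ↥(H θ)) ∈ M := by
  unfold trN
  rw [ZFSet.mem_sep]

theorem mem_trN {Z : ZFSet.{0}} (x : ↥(H θ)) : x.1 ∈ trN M Z ↔ x.1 ∈ Z ∧ x ∈ M := by
  rw [cln_mem]
  refine and_congr_right fun _ => ?_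
  constructor
  · rintro ⟨_, h⟩
    exact h
  · intro h
    exact ⟨x.2, h⟩

theorem val_trN (hθ : Lg θ) (hM : Good Δ M) {Z h : ↥(H θ)} (hZ : Z ∈ M) (hh : h ∈ M)
    (hE : Sc.Enum zmem zk Z.1 h.1) (g v : ZFSet.{0}) :
    Sc.Val zmem h.1 (trN M Z.1) g v ↔ valM M g v := by
  have hT : TV Δ M := hM.1.tv
  constructor
  · rintro ⟨ξ, f, hξ, hξf, hfv⟩
    obtain ⟨hξZ, hξH, hξM⟩ := cln_mem.1 hξ
    have hp : ZFSet.pair ξ f ∈ h.1 := z_app.1 hξf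
    have hf : f ∈ H θ := H_pair_right (H.mem_trans h.2 hp)
    have hfM : (⟨f, hf⟩ : ↥(H θ)) ∈ M := by
      refine tv_app hθ hT hh hξM (b := ⟨f, hf⟩) hp ?_
      intro c hc
      exact Subtype.ext (fun_uniq hE.1 hc hp)
    exact ⟨⟨f, hf⟩, hfM, hE.2.1 ξ f hξf, z_app.1 hfv⟩
  · rintro ⟨f, hfM, hf, hp⟩
    obtain ⟨ξ, hξZ, hξf⟩ := hE.2.2 f.1 hf
    have hξH : ξ ∈ H θ := H.mem_trans Z.2 hξZ
    have hp' : ZFSet.pair ξ f.1 ∈ h.1 := z_app.1 hξf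
    obtain ⟨ξ', hξ'M, hξ'Z, hξ'⟩ := hT.dfn3 (fun Z h f ξ => ξ.1 ∈ Z.1 ∧ PIn h ξ f)
      ((Dfn.mem _ _).and (dfn_in _ _ _)) hZ hh hfM (a := ⟨ξ, hξH⟩)
      ⟨hξZ, (pIn_iff hθ.1 _ _ _).2 hp'⟩
    refine ⟨ξ'.1, f.1, (mem_trN ξ').2 ⟨hξ'Z, hξ'M⟩, z_app.2 ((pIn_iff hθ.1 _ _ _).1 hξ'), z_app.2 hp⟩

private theorem cln_card (hM : M.Countable) (Z : ZFSet.{0}) : (trN M Z).card ≤ ℵ₀ := by
  have h1 : #↥(trN M Z) ≤ ℵ₀ := by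
    let F : ↥(trN M Z) → ↥M := fun x => ⟨⟨x.1, (cln_mem.1 x.2).2.choose⟩, (cln_mem.1 x.2).2.choose_spec⟩
    have hF : Function.Injective F := by
      intro x y hxy
      have := congrArg (fun z : ↥M => z.1.1) hxy
      exact Subtype.ext this
    have h2 : #↥(trN M Z) ≤ #↥M := Cardinal.mk_le_of_injective hF
    exact h2.trans (Cardinal.le_aleph0_iff_set_countable.2 hM)
  rw [ZFSet.cardinalMk_coe_sort] at h1
  rwa [Cardinal.lift_le_aleph0] at h1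

theorem cl_trN (hθ : Lg θ) (hM : Good Δ M) {Z h Φ : ↥(H θ)} (hZ : Z ∈ M) (hh : h ∈ M)
    (hΦ : Φ ∈ M) (hw : zw ⊆ Z.1) (hE : Sc.Enum zmem zk Z.1 h.1) (hB : Kr.BinOp zmem Z.1 Φ.1) :
    Sc.Cl zmem zw zo ∅ Z.1 h.1 Φ.1 (trN M Z.1) := by
  have hT : TV Δ M := hM.1.tv
  refine ⟨?_, ?_, ?_, ?_, ?_⟩
  · intro x hx
    exact (cln_mem.1 hx).1
  · intro x hx
    have hxH : x ∈ H θ := H.mem_trans (H_zw hθ) hx
    exact cln_mem.2 ⟨hw hx, hxH, tv_nat hθ hT (x := ⟨x, hxH⟩) hx⟩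
  · rw [z_cov]
    have h1 : zw.card = ℵ₀ := by
      unfold zw
      rw [Ordinal.card_toZFSet, Ordinal.card_omega0]
    rw [h1]
    exact cln_card hM.2.1 Z.1
  · intro x y z hx hy hxyz
    obtain ⟨hxZ, hxH, hxM⟩ := cln_mem.1 hx
    obtain ⟨hyZ, hyH, hyM⟩ := cln_mem.1 hy
    obtain ⟨c, hcZ, hc⟩ := hB x y hxZ hyZ
    have hzc : z = c := (hc z).1 hxyz
    have hzZ : z ∈ Z.1 := by rw [hzc]; exact hcZ
    have hzH : z ∈ H θ := H.mem_trans Z.2 hzZ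
    refine cln_mem.2 ⟨hzZ, hzH, ?_⟩
    refine tv_app2 hθ hT hΦ hxM hyM (c := ⟨z, hzH⟩) (z_app2.1 hxyz) ?_
    intro d hd
    exact Subtype.ext (((hc d.1).1 (z_app2.2 hd)).trans hzc.symm)
  · intro v u hv hval hu
    rw [val_trN hθ hM hZ hh hE] at hval ⊢
    rw [valM_bot hθ hT] at hval ⊢
    obtain ⟨α, hα, rfl⟩ := hval
    obtain ⟨δ, hδ, htr⟩ := hM.2.2
    obtain ⟨β, hβ, hβα⟩ := mem_zo.1 hv
    have hαω : α < ω₁ := by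
      rw [Ordinal.toZFSet_injective hβα]
      exact hβ
    have hα1 : α ∈ tr M ω₁ := ⟨hαω, hα.2⟩
    rw [htr] at hα1
    change u ∈ α.toZFSet at hu
    rw [Ordinal.mem_toZFSet_iff] at hu
    obtain ⟨ζ, hζ, rfl⟩ := hu
    have hζ1 : ζ ∈ tr M ω₁ := by
      rw [htr]
      exact lt_trans hζ hα1
    exact ⟨ζ, ⟨lt_trans hζ hα.1, hζ1.2⟩, rfl⟩

end Pool.MP_d8f801_lc.SC
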