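import Pool.Agent.Lib.MP_d8f801_lc.SC.V.Stmt
import Pool.Agent.Lib.MP_d8f801_lc.Code

/-!
# SC/H: definitions for the equivalence of the club form and the `H_θ` form
-/

set_option autoImplicit false

namespace Pool.MP_d8f801_lc.SC

open Cardinal Ordinal Set FirstOrder
open Pool.Agent.Lib.MP_4d8715_gt.KR

/-- membership in Mathlib's model of ZFC -/
def zmem (x y : ZFSet.{0}) : Prop := x ∈ y

/-- membership on `H_θ` -/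
def hmem {θ : Cardinal.{0}} (x y : ↥(H θ)) : Prop := x.1 ∈ y.1

/-- the set `ω` -/
noncomputable def zw : ZFSet.{0} := (ω : Ordinal.{0}).toZFSet
/-- the set `ω₁` -/
noncomputable def zo : ZFSet.{0} := (ω₁ : Ordinal.{0}).toZFSet
/-- the set `ω₂` -/
noncomputable def zk : ZFSet.{0} := (ω_ 2 : Ordinal.{0}).toZFSet

/-- `θ` is regular and greater than `ℵ₂` -/
def Lg (θ : Cardinal.{0}) : Prop := θ.IsRegular ∧ ℵ_ 2 < θ

/-- the body of `Sc.Club` -/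
def Wit {M : Type*} (E : M → M → Prop) (A : M → M → M → M → M → Prop) (w o k e Z h Φ : M) : Prop :=
  Sc.Par E w o k e ∧ Kr.Sub E w Z ∧ Sc.Enum E k Z h ∧ Kr.BinOp E Z Φ ∧
    ∀ N, Sc.Cl E w o e Z h Φ N → A o k e h N

/-- `v = f(g)` for some function `f : ω₂ → ω₂` in `M` -/
def valM {θ : Cardinal.{0}} (M : Set ↥(H θ)) (g v : ZFSet.{0}) : Prop :=
  ∃ f ∈ M, Kr.FunTo zmem f.1 zk zk ∧ ZFSet.pair g v ∈ f.1

/-- `F` is a functional relation -/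
def Fnl {θ : Cardinal.{0}} (F : ↥(H θ)) : Prop := ∀ a b c : ↥(H θ), PIn F a b → PIn F a c → b = c

/-- the hull of `M ∪ {g}` -/
def hull {θ : Cardinal.{0}} (M : Set ↥(H θ)) (g : ↥(H θ)) : Set ↥(H θ) :=
  {x | ∃ F ∈ M, Fnl F ∧ PIn F g x}

/-- the instance of `SCC` for the relation `V` (`V g v`: `v` is a value at `g`) -/
def Iscc (V : ZFSet.{0} → ZFSet.{0} → Prop) : Prop :=
  ∃ γ, γ ∈ zk ∧ ¬ V ∅ γ ∧ ∀ v, v ∈ zo → (V γ v ↔ V ∅ v)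

/-- the instance of `SCC^cof` -/
def Icof (V : ZFSet.{0} → ZFSet.{0} → Prop) : Prop :=
  ∀ β, β ∈ zk → ∃ γ, γ ∈ zk ∧ ¬ γ ∈ β ∧ ∀ v, v ∈ zo → (V γ v ↔ V ∅ v)

/-- the instance of `SCC^split` -/
def Isplit (V : ZFSet.{0} → ZFSet.{0} → Prop) : Prop :=
  ∃ γ γ', γ ∈ zk ∧ γ' ∈ zk ∧ (∀ v, v ∈ zo → (V γ v ↔ V ∅ v)) ∧ (∀ v, v ∈ zo → (V γ' v ↔ V ∅ v)) ∧
    (∃ v, V γ v ∧ ¬ V γ' v) ∧ ∃ v, V γ' v ∧ ¬ V γ v

/-- an instance: a formula `A`, and its meaning `I` in the universe -/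
structure Inst where
  A : ∀ {M : Type 1}, (M → M → Prop) → M → M → M → M → M → Prop
  φ : Fml 5
  sat : ∀ {M : Type 1} (E : M → M → Prop) (v : Fin 5 → M),
    Fml.Sat E φ v ↔ A E (v 0) (v 1) (v 2) (v 3) (v 4)
  abs : ∀ {θ : Cardinal.{0}}, Lg θ → ∀ o k e h N : ↥(H θ),
    A hmem o k e h N ↔ A zmem o.1 k.1 e.1 h.1 N.1
  I : (ZFSet.{0} → ZFSet.{0} → Prop) → Prop
  hI : ∀ h N : ZFSet.{0}, A zmem zo zk ∅ h N ↔ I (Sc.Val zmem h N)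
  congr : ∀ V V' : ZFSet.{0} → ZFSet.{0} → Prop, (∀ g ∈ zk, ∀ v, V g v ↔ V' g v) → (I V ↔ I V')

end Pool.MP_d8f801_lc.SC
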