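import Pool.Agent.Lib.MP_d8f801_lc.SC.H.Defs
import Pool.Agent.Lib.MP_4d8715_gt.KR.Z.Form

/-!
# SCH-Rel: renaming of variables, several quantifiers, definability of formulas

`Dfn.relabel`: for `φ : L.BoundedFormula Empty n` use `φ.toFormula : L.Formula (Empty ⊕ Fin n)`
(`BoundedFormula.realize_toFormula`), then `BoundedFormula.relabel` with `g : Empty ⊕ Fin n → Empty ⊕ Fin m`,
`g (inr i) = inr (σ i)` (`BoundedFormula.realize_relabel`). `Dfn.exs`: induction on `m` with `Dfn.ex` and `Dfn.relabel`.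
`dfn_fml`: induction on the formula; in the case `all` the variable `0` is quantified (`Fin.cons`), `Dfn.all` quantifies the last one
(`Fin.snoc`): use `Dfn.relabel` with a cyclic permutation of the variables.
-/

set_option autoImplicit false

namespace Pool.MP_d8f801_lc.SC

open Cardinal Ordinal Set FirstOrder
open Pool.Agent.Lib.MP_4d8715_gt.KR

variable {θ : Cardinal.{0}} {Δ : ↥(H θ) → ↥(H θ) → Prop}

theorem dfn_relabel {n m : ℕ} {P : (Fin n → ↥(H θ)) → Prop} (hP : Dfn Δ P) (σ : Fin n → Fin m) :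
    Dfn Δ (fun xs : Fin m → ↥(H θ) => P (xs ∘ σ)) := by
  obtain ⟨φ, hφ⟩ := hP
  let _ : L.Structure ↥(H θ) := str Δ
  let g : Empty ⊕ Fin n → Empty ⊕ Fin m := Sum.elim Empty.elim (fun i => Sum.inr (σ i))
  refine ⟨FirstOrder.Language.BoundedFormula.relabel (n := m) (k := 0) g φ.toFormula, fun xs => ?_⟩
  have h1 : Rz Δ (FirstOrder.Language.BoundedFormula.relabel (n := m) (k := 0) g φ.toFormula) xs ↔
      FirstOrder.Language.BoundedFormula.Realize φ.toFormula
        (Sum.elim (default : Empty → ↥(H θ)) (xs ∘ Fin.castAdd 0) ∘ g) (xs ∘ Fin.natAdd m) :=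
    FirstOrder.Language.BoundedFormula.realize_relabel
  have h2 : (xs ∘ (Fin.natAdd m : Fin 0 → Fin (m + 0))) = default := Subsingleton.elim _ _
  rw [h1, h2]
  have h3 := FirstOrder.Language.BoundedFormula.realize_toFormula φ
    (Sum.elim (default : Empty → ↥(H θ)) (xs ∘ Fin.castAdd 0) ∘ g)
  have h4 : ((Sum.elim (default : Empty → ↥(H θ)) (xs ∘ Fin.castAdd 0) ∘ g) ∘ Sum.inl) = default :=
    Subsingleton.elim _ _
  have h5 : ((Sum.elim (default : Empty → ↥(H θ)) (xs ∘ Fin.castAdd 0) ∘ g) ∘ Sum.inr) = xs ∘ σ := by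
    funext i
    rfl
  rw [h4, h5] at h3
  exact h3.trans (hφ (xs ∘ σ))

theorem dfn_exs {n m : ℕ} {P : (Fin (n + m) → ↥(H θ)) → Prop} (hP : Dfn Δ P) :
    Dfn Δ (fun xs : Fin n → ↥(H θ) => ∃ ys : Fin m → ↥(H θ), P (Fin.append xs ys)) := by
  induction m with
  | zero =>
    refine Dfn.congr (P := fun xs : Fin n → ↥(H θ) => P xs) hP fun xs => ?_
    have h : ∀ ys : Fin 0 → ↥(H θ), Fin.append xs ys = xs := fun ys => by
      rw [Fin.append_right_nil _ _ rfl]
      rfl
    constructor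
    · intro h1
      exact ⟨default, by rw [h]; exact h1⟩
    · rintro ⟨ys, h1⟩
      rw [h] at h1
      exact h1
  | succ m ih =>
    refine (ih (P := fun xs : Fin (n + m) → ↥(H θ) => ∃ a, P (Fin.snoc xs a)) hP.ex).congr fun xs => ?_
    have h : ∀ (ys : Fin m → ↥(H θ)) (a : ↥(H θ)),
        (Fin.append xs (Fin.snoc ys a : Fin (m + 1) → ↥(H θ)) : Fin (n + (m + 1)) → ↥(H θ)) =
          (Fin.snoc (Fin.append xs ys) a : Fin (n + m + 1) → ↥(H θ)) := fun ys a =>
      Fin.append_snoc _ _ _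
    constructor
    · rintro ⟨ys, a, h1⟩
      exact ⟨Fin.snoc ys a, by rw [h]; exact h1⟩
    · rintro ⟨ys, h1⟩
      refine ⟨Fin.init ys, ys (Fin.last m), ?_⟩
      rw [← h, Fin.snoc_init_self]
      exact h1

/-- finite conjunctions -/
theorem dfn_forall_fin {n m : ℕ} {P : Fin m → (Fin n → ↥(H θ)) → Prop} (hP : ∀ i, Dfn Δ (P i)) :
    Dfn Δ (fun xs : Fin n → ↥(H θ) => ∀ i, P i xs) := by
  induction m with
  | zero =>
    refine ⟨FirstOrder.Language.BoundedFormula.falsum.imp FirstOrder.Language.BoundedFormula.falsum,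
      fun xs => ⟨fun _ i => i.elim0, fun _ h => h⟩⟩
  | succ m ih =>
    refine ((hP 0).and (ih (P := fun i => P i.succ) fun i => hP i.succ)).congr fun xs => ?_
    exact (Fin.forall_fin_succ (P := fun i => P i xs)).symm

theorem dfn_fml {n : ℕ} (φ : Fml n) : Dfn Δ (fun xs : Fin n → ↥(H θ) => Fml.Sat hmem φ xs) := by
  induction φ with
  | mem i j => exact Dfn.mem i j
  | eq i j => exact Dfn.eq i j
  | bot =>
    exact ⟨FirstOrder.Language.BoundedFormula.falsum, fun xs => Iff.rfl⟩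
  | imp φ ψ h1 h2 => exact h1.imp h2
  | @all n φ ih =>
    let σ : Fin (n + 1) → Fin (n + 1) := Fin.cons (Fin.last n) Fin.castSucc
    refine (dfn_relabel ih σ).all.congr fun xs => ?_
    refine forall_congr' fun a => ?_
    have h : (Fin.snoc xs a ∘ σ : Fin (n + 1) → ↥(H θ)) = (Fin.cons a xs : Fin (n + 1) → ↥(H θ)) := by
      funext i
      refine Fin.cases ?_ (fun i => ?_) i
      · simp [σ]
      · simp [σ]
    exact iff_of_eq (congrArg (Fml.Sat hmem φ) h)

end Pool.MP_d8f801_lc.SC
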