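import Pool.Agent.Lib.MP_d8f801_lc.SC.H.ZBasic

/-!
# SCH-ZOmega: `ω` in `ZFSet`

`Kr.Ind zmem w` says that `∅ ∈ w` and `x ∈ w → insert x x ∈ w` (`z_emp`, `z_suc`). `zw = ω.toZFSet` is inductive
(`Ordinal.toZFSet_zero`, `Ordinal.toZFSet_succ`, `ω` is a limit). If `w'` is inductive, `n.toZFSet ∈ w'` for all `n : ℕ`
by induction, and every element of `zw` is of this form (`Ordinal.mem_toZFSet_iff`, `Ordinal.lt_omega0`).
-/

set_option autoImplicit false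

namespace Pool.MP_d8f801_lc.SC

open Cardinal Ordinal Set FirstOrder
open Pool.Agent.Lib.MP_4d8715_gt.KR

private theorem zOmega_nat (n : ℕ) : ((n : Ordinal.{0}) + 1).toZFSet =
    insert ((n : Ordinal.{0}).toZFSet) ((n : Ordinal.{0}).toZFSet) := by
  exact Ordinal.toZFSet_add_one _

private theorem zOmega_mem {x : ZFSet.{0}} : x ∈ zw ↔ ∃ n : ℕ, x = (n : Ordinal.{0}).toZFSet := by
  unfold zw
  rw [Ordinal.mem_toZFSet_iff]
  constructor
  · rintro ⟨b, hb, rfl⟩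
    obtain ⟨n, rfl⟩ := Ordinal.lt_omega0.mp hb
    exact ⟨n, rfl⟩
  · rintro ⟨n, rfl⟩
    exact ⟨n, Ordinal.natCast_lt_omega0 n, rfl⟩

theorem zw_ind {P : ZFSet.{0} → Prop} (h0 : P ∅) (h1 : ∀ x, x ∈ zw → P x → P (insert x x))
    {x : ZFSet.{0}} (hx : x ∈ zw) : P x := by
  obtain ⟨n, rfl⟩ := zOmega_mem.mp hx
  clear hx
  induction n with
  | zero => simpa using h0
  | succ n ih =>
    have h2 := h1 _ (zOmega_mem.mpr ⟨n, rfl⟩) ih
    rw [← zOmega_nat] at h2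
    push_cast
    exact h2
theorem empty_mem_zw : ∅ ∈ zw := zOmega_mem.mpr ⟨0, by simp⟩
theorem suc_mem_zw {x : ZFSet.{0}} (hx : x ∈ zw) : insert x x ∈ zw := by
  obtain ⟨n, rfl⟩ := zOmega_mem.mp hx
  refine zOmega_mem.mpr ⟨n + 1, ?_⟩
  rw [← zOmega_nat]
  push_cast
  rfl
theorem z_ind {w : ZFSet.{0}} : Kr.Ind zmem w ↔ ∅ ∈ w ∧ ∀ x ∈ w, insert x x ∈ w := by
  constructor
  · rintro ⟨h1, h2⟩
    exact ⟨h1 ∅ (z_emp.mpr rfl), fun x hx => h2 x _ hx (z_suc.mpr rfl)⟩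
  · rintro ⟨h1, h2⟩
    refine ⟨?_, ?_⟩
    · intro o ho
      rw [z_emp] at ho
      subst ho
      exact h1
    · intro x y hx hy
      rw [z_suc] at hy
      subst hy
      exact h2 x hx
theorem z_omega {w : ZFSet.{0}} : Kr.Omega zmem w ↔ w = zw := by
  constructor
  · rintro ⟨h1, h2⟩
    apply ZFSet.ext
    intro z
    constructor
    · intro hz
      exact h2 zw (z_ind.mpr ⟨empty_mem_zw, fun x hx => suc_mem_zw hx⟩) z hz
    · intro hz
      have h3 := z_ind.mp h1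
      exact zw_ind (P := fun x => x ∈ w) h3.1 (fun x _ hx => h3.2 x hx) hz
  · rintro rfl
    refine ⟨z_ind.mpr ⟨empty_mem_zw, fun x hx => suc_mem_zw hx⟩, ?_⟩
    intro w' hw' z hz
    have h3 := z_ind.mp hw'
    exact zw_ind (P := fun x => x ∈ w') h3.1 (fun x _ hx => h3.2 x hx) hz

end Pool.MP_d8f801_lc.SC
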