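import Pool.Agent.Lib.MP_d8f801_lc.SC.H.ZCov
import Pool.Agent.Lib.MP_d8f801_lc.SC.H.ZOmega

/-!
# SCH-ZPar: the parameters in `ZFSet`

An ordinal `x` is `x.rank.toZFSet` (`ZFSet.IsOrdinal.toZFSet_rank_eq`), its elements are the `β.toZFSet`, `β < x.rank`, and
`Ordinal.card_toZFSet`. So `Omega1 zmem zw α.toZFSet` says `¬ α.card ≤ ℵ₀` and `β.card ≤ ℵ₀` for `β < α`, i.e. `α = ω₁`;
similarly for `Omega2` with `ℵ₁` (`Cardinal.lt_ord`, `Cardinal.ord_aleph`, `ℵ_ 2 = succ ℵ₁`, see `card_le_of_lt_omega2` in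
`Code.lean`).
-/

set_option autoImplicit false

namespace Pool.MP_d8f801_lc.SC

open Cardinal Ordinal Set FirstOrder
open Pool.Agent.Lib.MP_4d8715_gt.KR

private theorem par_succ (c : Cardinal.{0}) (α : Ordinal.{0}) :
    (¬ α.card ≤ c ∧ ∀ β < α, β.card ≤ c) ↔ α = (Order.succ c).ord := by
  constructor
  · rintro ⟨h1, h2⟩
    have h3 : (Order.succ c).ord ≤ α := by
      rw [Cardinal.ord_le]
      exact Order.succ_le_of_lt (not_le.mp h1)
    rcases h3.lt_or_eq with h4 | h4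
    · have h5 := h2 _ h4
      rw [Cardinal.card_ord] at h5
      exact absurd (Order.lt_succ c) (not_lt.mpr h5)
    · exact h4.symm
  · rintro rfl
    refine ⟨?_, ?_⟩
    · rw [Cardinal.card_ord]
      exact not_le.mpr (Order.lt_succ c)
    · intro β hβ
      exact Order.lt_succ_iff.mp (Cardinal.lt_ord.mp hβ)

private theorem par_aux (a : ZFSet.{0}) (α : Ordinal.{0}) (hα : α = (Order.succ a.card).ord)
    {o : ZFSet.{0}} :
    (Sc.Ord zmem o ∧ ¬ Sc.Cov zmem a o ∧ ∀ x, zmem x o → Sc.Cov zmem a x) ↔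
      o = α.toZFSet := by
  constructor
  · rintro ⟨h1, h2, h3⟩
    have h4 := (z_ord.mp h1).toZFSet_rank_eq
    rw [← h4]
    congr 1
    rw [hα, ← par_succ]
    refine ⟨?_, ?_⟩
    · rw [z_cov, ← h4, Ordinal.card_toZFSet] at h2
      exact h2
    · intro β hβ
      have h5 : zmem β.toZFSet o := by
        unfold zmem
        rw [← h4]
        exact Ordinal.toZFSet_mem_toZFSet_iff.mpr hβ
      have h6 := h3 _ h5
      rwa [z_cov, Ordinal.card_toZFSet] at h6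
  · rintro rfl
    obtain ⟨h1, h2⟩ := (par_succ a.card α).mpr hα
    refine ⟨z_ord.mpr (ZFSet.isOrdinal_toZFSet α), ?_, ?_⟩
    · rw [z_cov, Ordinal.card_toZFSet]
      exact h1
    · intro x hx
      unfold zmem at hx
      rw [Ordinal.mem_toZFSet_iff] at hx
      obtain ⟨β, hβ, rfl⟩ := hx
      rw [z_cov, Ordinal.card_toZFSet]
      exact h2 β hβ

theorem z_omega1 {o : ZFSet.{0}} : Sc.Omega1 zmem zw o ↔ o = zo := by
  refine par_aux zw ω₁ ?_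
  rw [zw, Ordinal.card_toZFSet, Ordinal.card_omega0, Cardinal.succ_aleph0, Cardinal.ord_aleph]

theorem z_omega2 {k : ZFSet.{0}} : Sc.Omega2 zmem zo k ↔ k = zk := by
  refine par_aux zo (ω_ 2) ?_
  rw [zo, Ordinal.card_toZFSet, Ordinal.card_omega, Cardinal.succ_aleph, one_add_one_eq_two,
    Cardinal.ord_aleph]

theorem z_par {w o k e : ZFSet.{0}} :
    Sc.Par zmem w o k e ↔ w = zw ∧ o = zo ∧ k = zk ∧ e = ∅ := by
  unfold Sc.Par
  constructor
  · rintro ⟨h1, h2, h3, h4⟩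
    rw [z_omega] at h1
    subst h1
    rw [z_omega1] at h2
    subst h2
    rw [z_omega2] at h3
    exact ⟨rfl, rfl, h3, z_emp.mp h4⟩
  · rintro ⟨rfl, rfl, rfl, rfl⟩
    exact ⟨z_omega.mpr rfl, z_omega1.mpr rfl, z_omega2.mpr rfl, z_emp.mpr rfl⟩

theorem mem_zk {v : ZFSet.{0}} : v ∈ zk ↔ ∃ α < ω_ 2, v = α.toZFSet := by
  rw [zk, Ordinal.mem_toZFSet_iff]
  exact ⟨fun ⟨α, h, h'⟩ => ⟨α, h, h'.symm⟩, fun ⟨α, h, h'⟩ => ⟨α, h, h'.symm⟩⟩
theorem mem_zo {v : ZFSet.{0}} : v ∈ zo ↔ ∃ α < ω₁, v = α.toZFSet := by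
  rw [zo, Ordinal.mem_toZFSet_iff]
  exact ⟨fun ⟨α, h, h'⟩ => ⟨α, h, h'.symm⟩, fun ⟨α, h, h'⟩ => ⟨α, h, h'.symm⟩⟩
theorem zo_sub_zk : zo ⊆ zk := by
  refine Ordinal.toZFSet_subset_toZFSet_iff.mpr ?_
  rw [Ordinal.omega_le_omega]
  exact one_le_two
theorem zw_sub_zo : zw ⊆ zo := by
  refine Ordinal.toZFSet_subset_toZFSet_iff.mpr ?_
  exact Ordinal.omega0_le_omega _
theorem empty_mem_zk : ∅ ∈ zk := by
  rw [zk, ← Ordinal.toZFSet_zero]
  exact Ordinal.toZFSet_mem_toZFSet_iff.mpr (Ordinal.omega_pos _)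

end Pool.MP_d8f801_lc.SC
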