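import Pool.Agent.Lib.MP_d8f801_lc.SC.H.Abs3
import Pool.Agent.Lib.MP_d8f801_lc.SC.H.Rel
import Pool.Agent.Lib.MP_d8f801_lc.SC.H.ZPar
import Pool.Agent.Lib.MP_d8f801_lc.SC.V.Fml

/-!
# SCH-WitFml: definability of the body of `Sc.Club`, and the three instances

`fWit i` is the formula with the variables `w, o, k, e, Z, h, Φ`.
-/

set_option autoImplicit false

namespace Pool.MP_d8f801_lc.SC

open Cardinal Ordinal Set FirstOrder
open Pool.Agent.Lib.MP_4d8715_gt.KR

/-- the formula for the body of `Sc.Club` -/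
private def WitFml_f (φ : Fml 5) : Fml 7 :=
  .and (Fl.fPar 0 1 2 3) (.and (Fml.fSub 0 4) (.and (Fl.fEnum 2 4 5) (.and (Fml.fBinOp 4 6)
    (.all (.imp (Fl.fCl 1 2 4 5 6 7 0) (Fml.rename ![2, 3, 4, 6, 0] φ))))))

private theorem WitFml_sat (i : Inst) {M : Type 1} (E : M → M → Prop) (v : Fin 7 → M) :
    Fml.Sat E (WitFml_f i.φ) v ↔ Wit E (i.A E) (v 0) (v 1) (v 2) (v 3) (v 4) (v 5) (v 6) := by
  unfold WitFml_f Wit
  rw [Fml.sat_and, Fml.sat_and, Fml.sat_and, Fml.sat_and, Fml.sat_all, Fl.sat_fPar, Fml.sat_fSub,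
    Fl.sat_fEnum, Fml.sat_fBinOp]
  refine and_congr Iff.rfl (and_congr Iff.rfl (and_congr Iff.rfl (and_congr Iff.rfl ?_)))
  refine forall_congr' fun N => ?_
  rw [Fml.sat_imp, Fl.sat_fCl, Fml.sat_rename, i.sat]
  exact Iff.rfl

theorem dfn_wit (i : Inst) {θ : Cardinal.{0}} {Δ : ↥(H θ) → ↥(H θ) → Prop} :
    Dfn Δ (fun v : Fin 7 → ↥(H θ) =>
      Wit hmem (i.A hmem) (v 0) (v 1) (v 2) (v 3) (v 4) (v 5) (v 6)) := by
  have h := dfn_fml (θ := θ) (Δ := Δ) (WitFml_f i.φ)
  have e : (fun xs : Fin 7 → ↥(H θ) => Fml.Sat hmem (WitFml_f i.φ) xs) =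
      (fun v : Fin 7 → ↥(H θ) => Wit hmem (i.A hmem) (v 0) (v 1) (v 2) (v 3) (v 4) (v 5) (v 6)) :=
    funext fun v => propext (WitFml_sat i hmem v)
  rw [e] at h
  exact h

/-- `SCC` -/
noncomputable def iScc : Inst where
  A := fun E => Sc.AtScc E
  φ := Fl.fAtScc 0 1 2 3 4
  sat := fun E v => Fl.sat_fAtScc E 0 1 2 3 4 v
  abs := fun hθ o k e h N => a_atScc hθ o k e h N
  I := Iscc
  hI := fun _ _ => Iff.rfl
  congr := by
    intro V V' hV
    unfold Iscc
    refine exists_congr fun γ => and_congr_right fun hγ => and_congr ?_ ?_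
    · rw [hV _ empty_mem_zk]
    · refine forall_congr' fun v => imp_congr_right fun _ => ?_
      rw [hV _ hγ, hV _ empty_mem_zk]

/-- `SCC^cof` -/
noncomputable def iCof : Inst where
  A := fun E => Sc.AtCof E
  φ := Fl.fAtCof 0 1 2 3 4
  sat := fun E v => Fl.sat_fAtCof E 0 1 2 3 4 v
  abs := fun hθ o k e h N => a_atCof hθ o k e h N
  I := Icof
  hI := fun _ _ => Iff.rfl
  congr := by
    intro V V' hV
    unfold Icof
    refine forall_congr' fun β => imp_congr_right fun _ => exists_congr fun γ =>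
      and_congr_right fun hγ => and_congr Iff.rfl ?_
    refine forall_congr' fun v => imp_congr_right fun _ => ?_
    rw [hV _ hγ, hV _ empty_mem_zk]

/-- `SCC^split` -/
noncomputable def iSplit : Inst where
  A := fun E => Sc.AtSplit E
  φ := Fl.fAtSplit 0 1 2 3 4
  sat := fun E v => Fl.sat_fAtSplit E 0 1 2 3 4 v
  abs := fun hθ o k e h N => a_atSplit hθ o k e h N
  I := Isplit
  hI := fun _ _ => Iff.rfl
  congr := by
    intro V V' hV
    unfold Isplit
    refine exists_congr fun γ => exists_congr fun γ' => and_congr_right fun hγ =>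
      and_congr_right fun hγ' => and_congr ?_ (and_congr ?_ (and_congr ?_ ?_))
    · refine forall_congr' fun v => imp_congr_right fun _ => ?_
      rw [hV _ hγ, hV _ empty_mem_zk]
    · refine forall_congr' fun v => imp_congr_right fun _ => ?_
      rw [hV _ hγ', hV _ empty_mem_zk]
    · refine exists_congr fun v => ?_
      rw [hV _ hγ, hV _ hγ']
    · refine exists_congr fun v => ?_
      rw [hV _ hγ, hV _ hγ']

end Pool.MP_d8f801_lc.SC
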