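import Pool.Agent.Lib.MP_d8f801_lc.SC.H.ClN
import Pool.Agent.Lib.MP_d8f801_lc.SC.H.WitFml

/-!
# SCH-Fwd: from the club form to the `H_θ` form

Let `Wit zmem (i.A zmem) w o k e Z h Φ`. Take `θ₀` above `ℵ_ 3` such that the seven sets are in `H θ` for `θ ≥ θ₀` (`H_large`). For
`θ, Δ, M`: by `a_wit`, `dfn_wit` and `tv_exs` there is a witness in `M` with respect to `hmem`, so (`a_wit`) with respect to `zmem`; its
parameters are `zw, zo, zk, ∅` (`z_par`). Apply it to `N = trN M Z` (`cl_trN`), then `i.hI`, `i.congr`, `val_trN`.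
-/

set_option autoImplicit false

namespace Pool.MP_d8f801_lc.SC

open Cardinal Ordinal Set FirstOrder
open Pool.Agent.Lib.MP_4d8715_gt.KR

theorem fwd (i : Inst) (h : Sc.Club zmem (i.A zmem)) :
    ForLarge (fun {θ} (_ : ↥(H θ) → ↥(H θ) → Prop) (M : Set ↥(H θ)) => i.I (valM M)) := by
  obtain ⟨w, o, k, e, Z, h', Φ, hW⟩ := h
  obtain ⟨t1, g1⟩ := H_large w
  obtain ⟨t2, g2⟩ := H_large o
  obtain ⟨t3, g3⟩ := H_large k
  obtain ⟨t4, g4⟩ := H_large e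
  obtain ⟨t5, g5⟩ := H_large Z
  obtain ⟨t6, g6⟩ := H_large h'
  obtain ⟨t7, g7⟩ := H_large Φ
  refine ⟨max (Order.succ (ℵ_ 2)) (max t1 (max t2 (max t3 (max t4 (max t5 (max t6 t7)))))),
    fun θ hθ hreg Δ hΔ M hM => ?_⟩
  simp only [max_le_iff] at hθ
  obtain ⟨q0, q1, q2, q3, q4, q5, q6, q7⟩ := hθ
  have hL : Lg θ := ⟨hreg, Order.succ_le_iff.mp q0⟩
  have hex : ∃ xs : Fin 7 → ↥(H θ),
      Wit hmem (i.A hmem) (xs 0) (xs 1) (xs 2) (xs 3) (xs 4) (xs 5) (xs 6) := by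
    refine ⟨![⟨w, g1 θ q1⟩, ⟨o, g2 θ q2⟩, ⟨k, g3 θ q3⟩, ⟨e, g4 θ q4⟩, ⟨Z, g5 θ q5⟩, ⟨h', g6 θ q6⟩,
      ⟨Φ, g7 θ q7⟩], ?_⟩
    rw [a_wit i hL]
    exact hW
  obtain ⟨xs, hxs, hX⟩ := tv_exs hM.1.tv (dfn_wit i) hex
  rw [a_wit i hL] at hX
  obtain ⟨hP, hS, hE, hB, hN⟩ := hX
  rw [z_par] at hP
  obtain ⟨e0, e1, e2, e3⟩ := hP
  rw [e0] at hS hN
  rw [e1, e2, e3] at hN
  rw [e2] at hE
  rw [z_sub] at hS
  have hC := cl_trN hL hM (hxs 4) (hxs 5) (hxs 6) hS hE hB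
  have hA := hN _ hC
  rw [i.hI] at hA
  refine (i.congr _ _ ?_).mp hA
  intro g _ v
  exact val_trN hL hM (hxs 4) (hxs 5) hE g v

end Pool.MP_d8f801_lc.SC
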