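import Pool.Agent.Lib.MP_d8f801_lc.SC.H.Hull

/-!
# SCH-HullTV: the hull is elementary

Let `x i ∈ hull M g`, given by functional `F i ∈ M`, and let `Rz Δ φ (snoc x a)`. Let `b` be the `Δ`-least `b` with `Rz Δ φ (snoc x b)`.
Apply `tv_build` with the parameters `F` (`n` many), `K = zk` and
`S F ν y = ∃ z : Fin n → H θ, (∀ i, PIn (F i) ν (z i)) ∧ Rz Δ φ (snoc z y) ∧ ∀ c, Rz Δ φ (snoc z c) → c = y ∨ Δ y c`
(definable by `dfn_exs`, `dfn_forall_fin`, `dfn_in`, `dfn_relabel`, `Dfn.all`, `Dfn.lt`, `Dfn.eq`; single valued, since the `F i` are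
functional and the least element is unique). This gives `G ∈ M`, functional, with `PIn G g b`.
-/

set_option autoImplicit false

namespace Pool.MP_d8f801_lc.SC

open Cardinal Ordinal Set FirstOrder
open Pool.Agent.Lib.MP_4d8715_gt.KR

variable {θ : Cardinal.{0}} {Δ : ↥(H θ) → ↥(H θ) → Prop} {M : Set ↥(H θ)}

/-- the relation used for the Skolem function -/
private def SS (Δ : ↥(H θ) → ↥(H θ) → Prop) {n : ℕ} (φ : L.BoundedFormula Empty (n + 1))
    (v : Fin (n + 2) → ↥(H θ)) : Prop :=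
  ∃ z : Fin n → ↥(H θ), (∀ i : Fin n, PIn (v i.castSucc.castSucc) (v (Fin.last n).castSucc) (z i)) ∧
    Rz Δ φ (Fin.snoc z (v (Fin.last (n + 1)))) ∧
    ∀ c : ↥(H θ), Rz Δ φ (Fin.snoc z c) → (c = v (Fin.last (n + 1)) ∨ Δ (v (Fin.last (n + 1))) c)

private theorem dfn_rz {n m : ℕ} (φ : L.BoundedFormula Empty (n + 1)) (s : Fin n → Fin m)
    (j : Fin m) : Dfn Δ (fun u : Fin m → ↥(H θ) => Rz Δ φ (Fin.snoc (fun i => u (s i)) (u j))) := by
  refine (dfn_relabel (Δ := Δ) (P := fun u => Rz Δ φ u) ⟨φ, fun _ => Iff.rfl⟩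
    (Fin.snoc s j : Fin (n + 1) → Fin m)).congr ?_
  intro u
  have : (u ∘ (Fin.snoc s j : Fin (n + 1) → Fin m)) =
      (Fin.snoc (fun i => u (s i)) (u j) : Fin (n + 1) → ↥(H θ)) := by
    funext i
    refine Fin.lastCases ?_ (fun i => ?_) i
    · simp only [Function.comp, Fin.snoc_last]
    · simp only [Function.comp, Fin.snoc_castSucc]
  rw [this]

private theorem dfn_SS {n : ℕ} (φ : L.BoundedFormula Empty (n + 1)) : Dfn Δ (SS Δ φ) := by
  refine (dfn_exs (Δ := Δ) (n := n + 2) (m := n) (P := fun u : Fin (n + 2 + n) → ↥(H θ) =>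
    (∀ i : Fin n, PIn (u (Fin.castAdd n i.castSucc.castSucc)) (u (Fin.castAdd n (Fin.last n).castSucc))
      (u (Fin.natAdd (n + 2) i))) ∧
    Rz Δ φ (Fin.snoc (fun i => u (Fin.natAdd (n + 2) i)) (u (Fin.castAdd n (Fin.last (n + 1))))) ∧
    ∀ c : ↥(H θ), Rz Δ φ (Fin.snoc (fun i => u (Fin.natAdd (n + 2) i)) c) →
      (c = u (Fin.castAdd n (Fin.last (n + 1))) ∨ Δ (u (Fin.castAdd n (Fin.last (n + 1)))) c)) ?_).congr ?_
  · refine Dfn.and ?_ (Dfn.and ?_ ?_)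
    · exact dfn_forall_fin fun i => dfn_in _ _ _
    · exact dfn_rz φ _ _
    · refine (Dfn.all (P := fun ys : Fin (n + 2 + n + 1) → ↥(H θ) =>
        Rz Δ φ (Fin.snoc (fun i => ys (Fin.natAdd (n + 2) i).castSucc) (ys (Fin.last (n + 2 + n)))) →
        (ys (Fin.last (n + 2 + n)) = ys (Fin.castAdd n (Fin.last (n + 1))).castSucc ∨
          Δ (ys (Fin.castAdd n (Fin.last (n + 1))).castSucc) (ys (Fin.last (n + 2 + n))))) ?_).congr ?_
      · exact (dfn_rz φ _ _).imp ((Dfn.eq _ _).or (Dfn.lt _ _))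
      · intro xs
        simp only [Fin.snoc_last, Fin.snoc_castSucc]
  · intro xs
    simp only [Fin.append_left, Fin.append_right, SS]

theorem hull_tv [hΔ : IsWellOrder ↥(H θ) Δ] (hθ : Lg θ) (h : TV Δ M) {g : ↥(H θ)}
    (hg : g.1 ∈ zk) : TV Δ (hull M g) := by
  intro n φ x hx a ha
  choose F hFM hFn hFx using hx
  have wf : WellFounded Δ := hΔ.toIsWellFounded.wf
  let T : Set ↥(H θ) := {b | Rz Δ φ (Fin.snoc x b)}
  have hT : T.Nonempty := ⟨a, ha⟩
  let b := wf.min T hT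
  have hb : Rz Δ φ (Fin.snoc x b) := wf.min_mem T hT
  have hmin : ∀ c : ↥(H θ), Rz Δ φ (Fin.snoc x c) → c = b ∨ Δ b c := by
    intro c hc
    have h1 : ¬ Δ c b := wf.not_lt_min T hc
    rcases trichotomous_of Δ c b with h2 | h2 | h2
    · exact absurd h2 h1
    · exact Or.inl h2
    · exact Or.inr h2
  have hfun : ∀ ν y y' : ↥(H θ), ν.1 ∈ zk →
      SS Δ φ (Fin.snoc (Fin.snoc F ν : Fin (n + 1) → ↥(H θ)) y) →
      SS Δ φ (Fin.snoc (Fin.snoc F ν : Fin (n + 1) → ↥(H θ)) y') → y = y' := by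
    rintro ν y y' - ⟨z, hz1, hz2, hz3⟩ ⟨z', hz1', hz2', hz3'⟩
    simp only [Fin.snoc_last, Fin.snoc_castSucc] at hz1 hz2 hz3 hz1' hz2' hz3'
    have hzz : z = z' := by
      funext i
      exact hFn i ν _ _ (hz1 i) (hz1' i)
    subst hzz
    rcases hz3 y' hz2' with h1 | h1
    · exact h1.symm
    · rcases hz3' y hz2 with h2 | h2
      · exact h2
      · exact absurd h1 (asymm_of Δ h2)
  obtain ⟨G, hGM, hG⟩ := tv_build hθ h (dfn_SS φ) F hFM ⟨zk, H_zk hθ⟩ (tv_zk hθ h) hfun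
  have hGp : ∀ c d : ↥(H θ), PIn G c d ↔ c.1 ∈ zk ∧
      SS Δ φ (Fin.snoc (Fin.snoc F c : Fin (n + 1) → ↥(H θ)) d) := by
    intro c d
    rw [pIn_iff hθ.1]
    have h1 := hG ⟨ZFSet.pair c.1 d.1, H.pair hθ.1 c.2 d.2⟩
    rw [h1]
    constructor
    · rintro ⟨ν, y, h2, h3, h4⟩
      simp only at h2
      rw [ZFSet.pair_inj] at h2
      have e1 : c = ν := Subtype.ext h2.1
      have e2 : d = y := Subtype.ext h2.2
      subst e1
      subst e2
      exact ⟨h3, h4⟩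
    · rintro ⟨h3, h4⟩
      exact ⟨c, d, rfl, h3, h4⟩
  refine ⟨b, ⟨G, hGM, ?_, ?_⟩, hb⟩
  · intro c d d' h1 h2
    rw [hGp] at h1 h2
    exact hfun c d d' h1.1 h1.2 h2.2
  · rw [hGp]
    refine ⟨hg, x, ?_, ?_, ?_⟩
    · intro i
      simp only [Fin.snoc_last, Fin.snoc_castSucc]
      exact hFx i
    · simp only [Fin.snoc_last]
      exact hb
    · simp only [Fin.snoc_last]
      exact hmin

end Pool.MP_d8f801_lc.SC
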