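import Pool.Agent.Lib.MP_d8f801_lc.SC.H.Trace
import Pool.Agent.Lib.MP_d8f801_lc.SC.H.HullTV
import Pool.Agent.Lib.MP_d8f801_lc.Ends

/-!
# SCH-InstEq: the instances for one model

`hull_end`: `hull_tv` and `TV.elem`, `hull_countable`, `subset_hull`; the traces on `ω₁` agree by `hpres`, `valM_iff`, `valM_bot`
(`tr X ω₁ = tr X (ω_ 2) ∩ Iio ω₁`). `pres_of_end`: `valM_sub` for `→` (a value which is a countable ordinal is in `tr M' ω₁ = tr M ω₁`), and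
`←` by `valM_iff`, `subset_hull`. `inst_scc`: `→` take `M' = hull M γ`, `α = γ` (`mem_hull`). `←` take `γ = α.toZFSet`.
`inst_cof`: `→` as before, `γ ≤ sSup` by `le_csSup` (`tr` is bounded by `ω_ 2`). `←`: given `β`, apply `CofAt` to `succ β`: then
`β < sSup (tr M' _)`, so some `γ ∈ tr M'` is `> β` (`lt_csSup_iff` or `exists_lt_of_lt_csSup`).
`inst_split`: `→` take the two hulls. `←`: take `α ∈ tr M₀ \ tr M₁`, `α' ∈ tr M₁ \ tr M₀`; `valM M α α` by `tv_id`-function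
(or `valM_iff`, `mem_hull`), `¬ valM M α' α` by `valM_sub`.
-/

set_option autoImplicit false

namespace Pool.MP_d8f801_lc.SC

open Cardinal Ordinal Set FirstOrder
open Pool.Agent.Lib.MP_4d8715_gt.KR

variable {θ : Cardinal.{0}} {Δ : ↥(H θ) → ↥(H θ) → Prop} {M : Set ↥(H θ)}

private theorem ie_lt : (ω₁ : Ordinal.{0}) < ω_ 2 := by
  rw [Ordinal.omega_lt_omega]
  exact one_lt_two

private theorem ie_tr1 {X : Set ↥(H θ)} {α : Ordinal.{0}} :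
    α ∈ tr X ω₁ ↔ α ∈ tr X (ω_ 2) ∧ α < ω₁ := by
  constructor
  · rintro ⟨h1, h2⟩
    exact ⟨⟨h1.trans ie_lt, h2⟩, h1⟩
  · rintro ⟨⟨_, h2⟩, h1⟩
    exact ⟨h1, h2⟩

private theorem ie_val (hθ : Lg θ) (h : TV Δ M) {g : ↥(H θ)} (hg : g.1 ∈ zk) {α : Ordinal.{0}} :
    valM M g.1 α.toZFSet ↔ α ∈ tr (hull M g) (ω_ 2) := by
  rw [valM_iff hθ h hg]
  constructor
  · rintro ⟨β, hβ, he⟩
    rwa [Ordinal.toZFSet_injective he]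
  · intro hα
    exact ⟨α, hα, rfl⟩

private theorem ie_bot (hθ : Lg θ) (h : TV Δ M) {α : Ordinal.{0}} :
    valM M ∅ α.toZFSet ↔ α ∈ tr M (ω_ 2) := by
  rw [valM_bot hθ h]
  constructor
  · rintro ⟨β, hβ, he⟩
    rwa [Ordinal.toZFSet_injective he]
  · intro hα
    exact ⟨α, hα, rfl⟩

theorem hull_end [hΔ : IsWellOrder ↥(H θ) Δ] (hθ : Lg θ) (hM : Good Δ M) {g : ↥(H θ)}
    (hg : g.1 ∈ zk) (hpres : ∀ v, v ∈ zo → (valM M g.1 v ↔ valM M ∅ v)) :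
    hull M g ∈ End Δ M := by
  have htr : tr M ω₁ = tr (hull M g) ω₁ := by
    ext α
    rw [ie_tr1, ie_tr1]
    refine and_congr_left fun hα => ?_
    rw [← ie_bot hθ hM.1.tv, ← ie_val hθ hM.1.tv hg]
    exact (hpres _ (mem_zo.mpr ⟨α, hα, rfl⟩)).symm
  refine ⟨⟨(hull_tv hθ hM.1.tv hg).elem, hull_countable hM.2.1 g, ?_⟩,
    subset_hull hθ hM.1.tv hg, htr⟩
  rw [← htr]
  exact hM.2.2

theorem pres_of_end (hθ : Lg θ) (hM : Good Δ M) {M' : Set ↥(H θ)} (hM' : M' ∈ End Δ M)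
    {g : ↥(H θ)} (hg : g.1 ∈ zk) (hgM : g ∈ M') : ∀ v, v ∈ zo → (valM M g.1 v ↔ valM M ∅ v) := by
  intro v hv
  obtain ⟨α, hα, rfl⟩ := mem_zo.mp hv
  rw [ie_bot hθ hM.1.tv]
  constructor
  · intro h
    obtain ⟨β, hβ, he⟩ := valM_sub hθ hM'.1.1.tv hM'.2.1 hgM h
    have e1 : α = β := Ordinal.toZFSet_injective he
    subst e1
    have h1 : α ∈ tr M' ω₁ := ie_tr1.mpr ⟨hβ, hα⟩
    rw [← hM'.2.2] at h1
    exact (ie_tr1.mp h1).1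
  · intro h
    rw [ie_val hθ hM.1.tv hg]
    exact tr_mono (subset_hull hθ hM.1.tv hg) _ h

private theorem ie_mk (hθ : Lg θ) {γ : ZFSet.{0}} (hγ : γ ∈ zk) :
    ∃ (g : ↥(H θ)) (α : Ordinal.{0}), g.1 = γ ∧ α < ω_ 2 ∧ γ = α.toZFSet := by
  obtain ⟨α, hα, h⟩ := mem_zk.mp hγ
  exact ⟨⟨γ, H.mem_trans (H_zk hθ) hγ⟩, α, rfl, hα, h⟩

theorem inst_scc [hΔ : IsWellOrder ↥(H θ) Δ] (hθ : Lg θ) (hM : Good Δ M) :
    Iscc (valM M) ↔ ∃ M' ∈ End Δ M, ∃ α, α ∈ tr M' (ω_ 2) ∧ α ∉ tr M (ω_ 2) := by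
  constructor
  · rintro ⟨γ, hγ, hn, hp⟩
    obtain ⟨g, α, rfl, hα, he⟩ := ie_mk (θ := θ) hθ hγ
    refine ⟨hull M g, hull_end hθ hM hγ hp, α, ⟨hα, g, mem_hull hθ hM.1.tv hγ, he⟩, ?_⟩
    rwa [he, ie_bot hθ hM.1.tv] at hn
  · rintro ⟨M', hM', α, ⟨hα, x, hx, hxα⟩, hn⟩
    have hxk : x.1 ∈ zk := mem_zk.mpr ⟨α, hα, hxα⟩
    refine ⟨x.1, hxk, ?_, pres_of_end hθ hM hM' hxk hx⟩
    rwa [hxα, ie_bot hθ hM.1.tv]

theorem inst_cof [hΔ : IsWellOrder ↥(H θ) Δ] (hθ : Lg θ) (hM : Good Δ M) :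
    Icof (valM M) ↔ CofAt Δ M := by
  constructor
  · intro h γ₀ hγ₀
    obtain ⟨γ, hγ, hn, hp⟩ := h γ₀.toZFSet (mem_zk.mpr ⟨γ₀, hγ₀, rfl⟩)
    obtain ⟨g, α, rfl, hα, he⟩ := ie_mk (θ := θ) hθ hγ
    rw [he, Ordinal.toZFSet_mem_toZFSet_iff, not_lt] at hn
    refine ⟨α, hn, hα, hull M g, hull_end hθ hM hγ hp, ?_⟩
    exact le_csSup ⟨ω_ 2, fun _ hβ => hβ.1.le⟩ ⟨hα, g, mem_hull hθ hM.1.tv hγ, he⟩
  · intro h β hβ
    obtain ⟨b, hb, rfl⟩ := mem_zk.mp hβ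
    have hsb : Order.succ b < ω_ 2 := by
      rw [← Cardinal.ord_aleph] at hb ⊢
      exact (Cardinal.isSuccLimit_ord (Cardinal.aleph0_le_aleph 2)).succ_lt hb
    obtain ⟨γ, hγ, _, M', hM', hle⟩ := h (Order.succ b) hsb
    have hlt : b < sSup (tr M' (ω_ 2)) := lt_of_lt_of_le (Order.succ_le_iff.mp hγ) hle
    have hne : (tr M' (ω_ 2)).Nonempty := by
      rw [Set.nonempty_iff_ne_empty]
      intro h0
      rw [h0, csSup_empty] at hlt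
      exact absurd hlt (not_lt.mpr bot_le)
    obtain ⟨α, ⟨hα, x, hx, hxα⟩, hbα⟩ := exists_lt_of_lt_csSup hne hlt
    have hxk : x.1 ∈ zk := mem_zk.mpr ⟨α, hα, hxα⟩
    refine ⟨x.1, hxk, ?_, pres_of_end hθ hM hM' hxk hx⟩
    rw [hxα, Ordinal.toZFSet_mem_toZFSet_iff, not_lt]
    exact hbα.le

theorem inst_split [hΔ : IsWellOrder ↥(H θ) Δ] (hθ : Lg θ) (hM : Good Δ M) :
    Isplit (valM M) ↔ SplitAt Δ M := by
  constructor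
  · rintro ⟨γ, γ', hγ, hγ', hp, hp', ⟨v, hv, hnv⟩, v', hv', hnv'⟩
    obtain ⟨g, α, rfl, hα, he⟩ := ie_mk (θ := θ) hθ hγ
    obtain ⟨g', α', rfl, hα', he'⟩ := ie_mk (θ := θ) hθ hγ'
    refine ⟨hull M g, hull_end hθ hM hγ hp, hull M g', hull_end hθ hM hγ' hp', ?_, ?_⟩
    · intro hs
      obtain ⟨β, hβ, rfl⟩ := (valM_iff hθ hM.1.tv hγ v).mp hv
      exact hnv ((ie_val hθ hM.1.tv hγ').mpr (hs hβ))
    · intro hs
      obtain ⟨β, hβ, rfl⟩ := (valM_iff hθ hM.1.tv hγ' v').mp hv'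
      exact hnv' ((ie_val hθ hM.1.tv hγ).mpr (hs hβ))
  · rintro ⟨M₀, h0, M₁, h1, h3, h4⟩
    rw [Set.not_subset] at h3 h4
    obtain ⟨α, hα, hn⟩ := h3
    obtain ⟨α', hα', hn'⟩ := h4
    have hα0 := hα
    have hα0' := hα'
    obtain ⟨hαk, x, hx, hxα⟩ := hα
    obtain ⟨hαk', x', hx', hxα'⟩ := hα'
    have hxk : x.1 ∈ zk := mem_zk.mpr ⟨α, hαk, hxα⟩
    have hxk' : x'.1 ∈ zk := mem_zk.mpr ⟨α', hαk', hxα'⟩
    refine ⟨x.1, x'.1, hxk, hxk', pres_of_end hθ hM h0 hxk hx, pres_of_end hθ hM h1 hxk' hx',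
      ⟨x.1, ?_, ?_⟩, x'.1, ?_, ?_⟩
    · exact (valM_iff hθ hM.1.tv hxk x.1).mpr ⟨α, ⟨hαk, x, mem_hull hθ hM.1.tv hxk, hxα⟩, hxα⟩
    · intro hv
      obtain ⟨β, hβ, he⟩ := valM_sub hθ h1.1.1.tv h1.2.1 hx' hv
      have e1 : α = β := Ordinal.toZFSet_injective (hxα.symm.trans he)
      exact hn (e1 ▸ hβ)
    · exact (valM_iff hθ hM.1.tv hxk' x'.1).mpr
        ⟨α', ⟨hαk', x', mem_hull hθ hM.1.tv hxk', hxα'⟩, hxα'⟩
    · intro hv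
      obtain ⟨β, hβ, he⟩ := valM_sub hθ h0.1.1.tv h0.2.1 hx hv
      have e1 : α' = β := Ordinal.toZFSet_injective (hxα'.symm.trans he)
      exact hn' (e1 ▸ hβ)

end Pool.MP_d8f801_lc.SC
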