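import Pool.Agent.Lib.MP_d8f801_lc.SC.H.Fwd
import Pool.Agent.Lib.MP_d8f801_lc.SC.H.Bwd
import Pool.Agent.Lib.MP_d8f801_lc.SC.H.InstEq

/-!
# SC/H: in `ZFSet` the principles of `V/Stmt.lean` are those of the problem (`H_θ` and elementary submodels)
-/

set_option autoImplicit false

namespace Pool.MP_d8f801_lc.SC

open Cardinal Ordinal Set FirstOrder

theorem forLarge_mono {P Q : ∀ {θ : Cardinal.{0}} (_ : ↥(H θ) → ↥(H θ) → Prop) (_ : Set ↥(H θ)), Prop}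
    (h : ∀ {θ : Cardinal.{0}} (_ : Lg θ) (Δ : ↥(H θ) → ↥(H θ) → Prop) (_ : IsWellOrder ↥(H θ) Δ)
      (M : Set ↥(H θ)), Good Δ M → (P Δ M → Q Δ M)) (hP : ForLarge P) : ForLarge Q := by
  obtain ⟨θ₀, h0⟩ := hP
  refine ⟨max θ₀ (Order.succ (ℵ_ 2)), fun θ hθ hreg Δ hΔ M hM => ?_⟩
  exact h ⟨hreg, Order.succ_le_iff.mp ((le_max_right _ _).trans hθ)⟩ Δ hΔ M hM
    (h0 θ ((le_max_left _ _).trans hθ) hreg Δ hΔ M hM)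

theorem forLarge_congr {P Q : ∀ {θ : Cardinal.{0}} (_ : ↥(H θ) → ↥(H θ) → Prop) (_ : Set ↥(H θ)), Prop}
    (h : ∀ {θ : Cardinal.{0}} (_ : Lg θ) (Δ : ↥(H θ) → ↥(H θ) → Prop) (_ : IsWellOrder ↥(H θ) Δ)
      (M : Set ↥(H θ)), Good Δ M → (P Δ M ↔ Q Δ M)) : ForLarge P ↔ ForLarge Q :=
  ⟨forLarge_mono fun hθ Δ hΔ M hM => (h hθ Δ hΔ M hM).1,
    forLarge_mono fun hθ Δ hΔ M hM => (h hθ Δ hΔ M hM).2⟩

theorem sc_SCC_iff : Sc.SCC zmem ↔ Pool.MP_d8f801_lc.SCC := by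
  have h1 : Sc.SCC zmem ↔ ForLarge (fun {θ} (_ : ↥(H θ) → ↥(H θ) → Prop) (M : Set ↥(H θ)) =>
      iScc.I (valM M)) := ⟨fwd iScc, bwd iScc⟩
  exact h1.trans (forLarge_congr fun hθ Δ hΔ M hM => inst_scc hθ hM)

theorem sc_SCCcof_iff : Sc.SCCcof zmem ↔ Pool.MP_d8f801_lc.SCCcof := by
  have h1 : Sc.SCCcof zmem ↔ ForLarge (fun {θ} (_ : ↥(H θ) → ↥(H θ) → Prop) (M : Set ↥(H θ)) =>
      iCof.I (valM M)) := ⟨fwd iCof, bwd iCof⟩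
  exact h1.trans (forLarge_congr fun hθ Δ hΔ M hM => inst_cof hθ hM)

theorem sc_SCCsplit_iff : Sc.SCCsplit zmem ↔ Pool.MP_d8f801_lc.SCCsplit := by
  have h1 : Sc.SCCsplit zmem ↔ ForLarge (fun {θ} (_ : ↥(H θ) → ↥(H θ) → Prop) (M : Set ↥(H θ)) =>
      iSplit.I (valM M)) := ⟨fwd iSplit, bwd iSplit⟩
  exact h1.trans (forLarge_congr fun hθ Δ hΔ M hM => inst_split hθ hM)

end Pool.MP_d8f801_lc.SC
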