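import Pool.Agent.Lib.MP_d8f801_lc.SC.H.ZBasic

/-!
# SCH-Graph: graphs of functions as sets

`gr A g` is the set of the pairs `(a, g a)`, `a ∈ A`. `exists_binop`: `Φ = gr (Z × Z) G`, where `G (a, b) = φ a b`
(`ZFSet.prod`; choose `G` with `Classical`: `G p = φ a b` if `p = pair a b` for some `a, b`).
`gr_mem_H`: `H.of_forall`, `H.pair`; the number of elements is at most `A.card` (`ZFSet.lift_card_range_le`), and
`A.card < θ` as `A ∈ H θ` (`ZFSet.card_mono`).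
-/

set_option autoImplicit false

namespace Pool.MP_d8f801_lc.SC

open Cardinal Ordinal Set FirstOrder
open Pool.Agent.Lib.MP_4d8715_gt.KR

/-- the graph of `g` on `A` -/
noncomputable def gr (A : ZFSet.{0}) (g : ZFSet.{0} → ZFSet.{0}) : ZFSet.{0} :=
  ZFSet.range (fun x : ↥A => ZFSet.pair x.1 (g x.1))

variable {A B : ZFSet.{0}} {g : ZFSet.{0} → ZFSet.{0}}

theorem mem_gr {p : ZFSet.{0}} : p ∈ gr A g ↔ ∃ a ∈ A, p = ZFSet.pair a (g a) := by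
  unfold gr
  rw [ZFSet.mem_range]
  constructor
  · rintro ⟨x, hx⟩
    exact ⟨x.1, x.2, hx.symm⟩
  · rintro ⟨a, ha, hp⟩
    exact ⟨⟨a, ha⟩, hp.symm⟩

theorem pair_mem_gr {a b : ZFSet.{0}} : ZFSet.pair a b ∈ gr A g ↔ a ∈ A ∧ b = g a := by
  rw [mem_gr]
  constructor
  · rintro ⟨x, hx, hp⟩
    rw [ZFSet.pair_inj] at hp
    obtain ⟨rfl, h2⟩ := hp
    exact ⟨hx, h2⟩
  · rintro ⟨ha, rfl⟩
    exact ⟨a, ha, rfl⟩

theorem gr_funOn : Kr.FunOn zmem (gr A g) A := by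
  rw [funOn_iff]
  refine ⟨fun p hp => ?_, fun a ha => ?_⟩
  · obtain ⟨a, ha, hp⟩ := mem_gr.1 hp
    exact ⟨a, g a, ha, hp⟩
  · refine ⟨g a, fun c => ?_⟩
    rw [pair_mem_gr]
    exact and_iff_right ha

theorem gr_funTo (h : ∀ a ∈ A, g a ∈ B) : Kr.FunTo zmem (gr A g) A B := by
  rw [funTo_iff]
  refine ⟨gr_funOn, fun a b hab => ?_⟩
  rw [pair_mem_gr] at hab
  rw [hab.2]
  exact h a hab.1

theorem exists_binop (Z : ZFSet.{0}) (φ : ZFSet.{0} → ZFSet.{0} → ZFSet.{0})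
    (h : ∀ x ∈ Z, ∀ y ∈ Z, φ x y ∈ Z) : ∃ Φ : ZFSet.{0}, Kr.BinOp zmem Z Φ ∧
      ∀ x y z : ZFSet.{0}, x ∈ Z → y ∈ Z → (Kr.App2 zmem Φ x y z ↔ z = φ x y) := by
  classical
  have hG : ∀ p : ZFSet.{0}, ∃ v : ZFSet.{0}, ∀ a b, p = ZFSet.pair a b → v = φ a b := by
    intro p
    by_cases hp : ∃ a b, p = ZFSet.pair a b
    · obtain ⟨a, b, hab⟩ := hp
      refine ⟨φ a b, fun a' b' h' => ?_⟩
      rw [hab, ZFSet.pair_inj] at h'
      rw [h'.1, h'.2]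
    · exact ⟨∅, fun a b hab => absurd ⟨a, b, hab⟩ hp⟩
  choose G hG using hG
  have key : ∀ x y z : ZFSet.{0}, x ∈ Z → y ∈ Z →
      (Kr.App2 zmem (gr (ZFSet.prod Z Z) G) x y z ↔ z = φ x y) := by
    intro x y z hx hy
    rw [z_app2, pair_mem_gr, ZFSet.pair_mem_prod, hG _ x y rfl]
    exact and_iff_right ⟨hx, hy⟩
  exact ⟨gr (ZFSet.prod Z Z) G, fun a b ha hb => ⟨φ a b, h a ha b hb, fun d => key a b d ha hb⟩, key⟩

theorem card_lt_of_mem_H {θ : Cardinal.{0}} {x : ZFSet.{0}} (h : x ∈ H θ) : x.card < θ := by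
  obtain ⟨t, ht, hxt, hc⟩ := h
  exact (ZFSet.card_mono hxt).trans_lt hc

theorem gr_mem_H {θ : Cardinal.{0}} (hθ : θ.IsRegular) (hA : A ∈ H θ) (hg : ∀ a ∈ A, g a ∈ H θ) :
    gr A g ∈ H θ := by
  refine H.of_forall hθ (fun p hp => ?_) (lt_of_le_of_lt ?_ (card_lt_of_mem_H hA))
  · obtain ⟨a, ha, rfl⟩ := mem_gr.1 hp
    exact H.pair hθ (H.mem_trans hA ha) (hg a ha)
  · have h1 := ZFSet.lift_card_range_le.{1, 0} (f := fun x : ↥A => ZFSet.pair x.1 (g x.1))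
    have h2 : lift.{1} (gr A g).card ≤ lift.{1} A.card := by
      refine h1.trans ?_
      rw [ZFSet.cardinalMk_coe_sort]
      simp
    exact lift_le.1 h2

end Pool.MP_d8f801_lc.SC
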