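import Pool.Agent.Lib.MP_d8f801_lc.SC.H.Graph
import Pool.Agent.Lib.MP_d8f801_lc.SC.H.ZPar

/-!
# SCH-HBasic: more facts on `H_θ`

`H_subset`: same transitive set. `H_large`: the transitive set `V_ (succ x.rank)` contains `x` (`ZFSet.mem_vonNeumann_succ`,
`ZFSet.isTransitive_vonNeumann`), take `θ₀ = succ (its card)`. `exists_Hset`: an element of `H θ` is contained in a transitive
set `t` of cardinality `< θ`; the ranks of the elements of `t` form an initial segment of the ordinals, so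
`t.rank < θ.ord`... simpler: `H θ` is contained in `V_ o` for `o = θ.ord` (by `∈`-induction on `x` for fixed transitive `t ⊇ x`: if
`z ∈ t` then `z.rank.card < θ`, since `z.rank` is the rank of `t`-elements: the set of ranks of elements of `t` is transitive, so it
contains all ordinals `< z.rank`, and `rank` maps `t` onto it). Then use `ZFSet.sep`. (Any other proof that `H θ` is small will do.)
`funTo_mem_H`: `f = gr`-like set of pairs of elements of `H θ` of cardinality at most the one of the domain.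
-/

set_option autoImplicit false

namespace Pool.MP_d8f801_lc.SC

open Cardinal Ordinal Set FirstOrder
open Pool.Agent.Lib.MP_4d8715_gt.KR

variable {θ : Cardinal.{0}}

theorem H_subset {x y : ZFSet.{0}} (hy : y ∈ H θ) (h : x ⊆ y) : x ∈ H θ := by
  obtain ⟨t, ht, hyt, hc⟩ := hy
  exact ⟨t, ht, fun _ hz => hyt (h hz), hc⟩

theorem H_large (x : ZFSet.{0}) : ∃ θ₀ : Cardinal.{0}, ∀ θ, θ₀ ≤ θ → x ∈ H θ := by
  refine ⟨Order.succ (ZFSet.vonNeumann x.rank).card, fun θ hθ => ?_⟩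
  exact ⟨ZFSet.vonNeumann x.rank, ZFSet.isTransitive_vonNeumann _, ZFSet.subset_vonNeumann_self x,
    (Order.lt_succ _).trans_le hθ⟩

private theorem HBasic_rank {t : ZFSet.{0}} (ht : t.IsTransitive) : t.rank.card ≤ t.card := by
  have hsub : Set.Iio t.rank ⊆ Set.range (fun y : ↥t => ZFSet.rank y.1) := by
    intro α hα
    have hα' : α < t.rank := hα
    by_contra hcon
    -- an element of `t` of rank `≥ α` of least rank
    have key : ∀ β : Ordinal.{0}, ∀ y ∈ t, y.rank = β → ¬ α ≤ β := by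
      intro β
      induction β using WellFoundedLT.induction with
      | ind β ih =>
        intro y hy hyβ hαβ
        rcases hαβ.eq_or_lt with h | h
        · exact hcon ⟨⟨y, hy⟩, by rw [h, ← hyβ]⟩
        · rw [← hyβ, ZFSet.lt_rank_iff] at h
          obtain ⟨z, hz, hαz⟩ := h
          have hzt : z ∈ t := ht.subset_of_mem hy hz
          exact ih z.rank (by rw [← hyβ]; exact ZFSet.rank_lt_of_mem hz) z hzt rfl hαz
    obtain ⟨y, hy, hαy⟩ := ZFSet.lt_rank_iff.1 hα'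
    exact key _ y hy rfl hαy
  have h1 := (Cardinal.mk_le_mk_of_subset hsub).trans Cardinal.mk_range_le
  rw [Cardinal.mk_Iio_ordinal, ZFSet.cardinalMk_coe_sort, Cardinal.lift_le] at h1
  exact h1

theorem exists_Hset (θ : Cardinal.{0}) : ∃ S : ZFSet.{0}, ∀ x, x ∈ S ↔ x ∈ H θ := by
  refine ⟨ZFSet.sep (fun x => x ∈ H θ) (ZFSet.vonNeumann θ.ord), fun x => ?_⟩
  rw [ZFSet.mem_sep]
  refine ⟨fun h => h.2, fun h => ⟨?_, h⟩⟩
  obtain ⟨t, ht, hxt, hc⟩ := h
  rw [ZFSet.mem_vonNeumann]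
  refine (ZFSet.rank_mono hxt).trans_lt ?_
  rw [Cardinal.lt_ord]
  exact (HBasic_rank ht).trans_lt hc

theorem H_pair_left {a b : ZFSet.{0}} (h : ZFSet.pair a b ∈ H θ) : a ∈ H θ := by
  have h1 : ({a} : ZFSet.{0}) ∈ ZFSet.pair a b := by
    rw [ZFSet.pair, ZFSet.mem_pair]; left; rfl
  exact H.mem_trans (H.mem_trans h h1) (ZFSet.mem_singleton.2 rfl)

theorem H_pair_right {a b : ZFSet.{0}} (h : ZFSet.pair a b ∈ H θ) : b ∈ H θ := by
  have h1 : ({a, b} : ZFSet.{0}) ∈ ZFSet.pair a b := by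
    rw [ZFSet.pair, ZFSet.mem_pair]; right; rfl
  exact H.mem_trans (H.mem_trans h h1) (ZFSet.mem_pair.2 (Or.inr rfl))

theorem H_empty (hθ : Lg θ) : ∅ ∈ H θ :=
  ⟨∅, ZFSet.isTransitive_empty, fun _ h => h, by
    rw [ZFSet.card_empty]; exact hθ.1.pos⟩

theorem H_zw (hθ : Lg θ) : zw ∈ H θ := by
  refine H.ord ?_
  rw [Ordinal.card_omega0]
  exact lt_of_le_of_lt (Cardinal.aleph0_le_aleph 2) hθ.2

theorem H_zo (hθ : Lg θ) : zo ∈ H θ := by
  refine H.ord ?_
  rw [Ordinal.card_omega]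
  exact lt_trans (Cardinal.aleph_lt_aleph.2 one_lt_two) hθ.2

theorem H_zk (hθ : Lg θ) : zk ∈ H θ := by
  refine H.ord ?_
  rw [Ordinal.card_omega]
  exact hθ.2

theorem H_suc (hθ : Lg θ) {x : ZFSet.{0}} (hx : x ∈ H θ) : insert x x ∈ H θ := by
  refine H.of_forall hθ.1 ?_ ?_
  · intro y hy
    rw [ZFSet.mem_insert_iff] at hy
    rcases hy with rfl | hy
    · exact hx
    · exact H.mem_trans hx hy
  · refine ZFSet.card_insert_le.trans_lt ?_
    exact add_lt_of_lt hθ.1.aleph0_le (card_lt_of_mem_H hx)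
      (lt_of_lt_of_le Cardinal.one_lt_aleph0 hθ.1.aleph0_le)

theorem funTo_mem_H (hθ : Lg θ) {f d r : ZFSet.{0}} (hd : d ∈ H θ) (hr : r ∈ H θ)
    (hf : Kr.FunTo zmem f d r) : f ∈ H θ := by
  classical
  rw [funTo_iff] at hf
  obtain ⟨hf1, hf2⟩ := hf
  rw [funOn_iff] at hf1
  obtain ⟨hf3, hf4⟩ := hf1
  have hg : ∀ a : ZFSet.{0}, ∃ b : ZFSet.{0}, a ∈ d → ∀ c, ZFSet.pair a c ∈ f ↔ c = b := by
    intro a
    by_cases ha : a ∈ d
    · obtain ⟨b, hb⟩ := hf4 a ha
      exact ⟨b, fun _ => hb⟩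
    · exact ⟨∅, fun h => absurd h ha⟩
  choose g hg using hg
  have hfg : f = gr d g := by
    apply ZFSet.ext
    intro p
    rw [mem_gr]
    constructor
    · intro hp
      obtain ⟨a, b, ha, rfl⟩ := hf3 p hp
      exact ⟨a, ha, by rw [(hg a ha b).1 hp]⟩
    · rintro ⟨a, ha, rfl⟩
      exact (hg a ha (g a)).2 rfl
  rw [hfg]
  refine gr_mem_H hθ.1 hd fun a ha => ?_
  exact H.mem_trans hr (hf2 a (g a) ((hg a ha (g a)).2 rfl))

end Pool.MP_d8f801_lc.SC
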