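import Pool.Agent.Lib.MP_d8f801_lc.SC.H.TVx
import Pool.Agent.Lib.MP_d8f801_lc.SC.H.ZPar
import Pool.Agent.Lib.MP_d8f801_lc.SC.V.Fml

/-!
# SCH-TVk: `ω₁` and `ω₂` are in the elementary submodels

`Sc.Par hmem w o k e` (formula `fPar`, `dfn_fml`, `a_par`, `z_par`) has exactly one solution; `tv_exs`.
-/

set_option autoImplicit false

namespace Pool.MP_d8f801_lc.SC

open Cardinal Ordinal Set FirstOrder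
open Pool.Agent.Lib.MP_4d8715_gt.KR

variable {θ : Cardinal.{0}} {Δ : ↥(H θ) → ↥(H θ) → Prop} {M : Set ↥(H θ)}

private theorem TVk_par (hθ : Lg θ) (h : TV Δ M) :
    (⟨zo, H_zo hθ⟩ : ↥(H θ)) ∈ M ∧ (⟨zk, H_zk hθ⟩ : ↥(H θ)) ∈ M := by
  have hP := dfn_fml (θ := θ) (Δ := Δ) (Fl.fPar (0 : Fin 4) 1 2 3)
  obtain ⟨xs, hxs, hx⟩ := tv_exs h hP
    ⟨![⟨zw, H_zw hθ⟩, ⟨zo, H_zo hθ⟩, ⟨zk, H_zk hθ⟩, ⟨∅, H_empty hθ⟩], by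
      rw [Fl.sat_fPar, a_par hθ, z_par]
      exact ⟨rfl, rfl, rfl, rfl⟩⟩
  rw [Fl.sat_fPar, a_par hθ, z_par] at hx
  obtain ⟨_, h1, h2, _⟩ := hx
  have e1 : xs 1 = ⟨zo, H_zo hθ⟩ := Subtype.ext h1
  have e2 : xs 2 = ⟨zk, H_zk hθ⟩ := Subtype.ext h2
  exact ⟨e1 ▸ hxs 1, e2 ▸ hxs 2⟩

theorem tv_zo (hθ : Lg θ) (h : TV Δ M) : (⟨zo, H_zo hθ⟩ : ↥(H θ)) ∈ M := (TVk_par hθ h).1
theorem tv_zk (hθ : Lg θ) (h : TV Δ M) : (⟨zk, H_zk hθ⟩ : ↥(H θ)) ∈ M := (TVk_par hθ h).2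

end Pool.MP_d8f801_lc.SC
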