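import Pool.Agent.Lib.MP_d8f801_lc.SC.H.Build
import Pool.Agent.Lib.MP_d8f801_lc.SC.H.TVk

/-!
# SCH-Hull: simple facts on the hull

`hull_countable`: for each `F` at most one `x`. `subset_hull`: the constant function with value `x` on `zk` is in `M` (`tv_build` with
one parameter, `S = y = x`). `mem_hull`: the identity on `zk`. `hull_of_mem`: `tv_app`; `⊇` is `subset_hull`.
(`app_pin`, `pIn_iff`.)
-/

set_option autoImplicit false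

namespace Pool.MP_d8f801_lc.SC

open Cardinal Ordinal Set FirstOrder
open Pool.Agent.Lib.MP_4d8715_gt.KR

variable {θ : Cardinal.{0}} {Δ : ↥(H θ) → ↥(H θ) → Prop} {M : Set ↥(H θ)}

theorem hull_countable (hM : M.Countable) (g : ↥(H θ)) : (hull M g).Countable := by
  have h1 : hull M g = ⋃ F ∈ M, {x | Fnl F ∧ PIn F g x} := by
    ext x
    simp only [hull, Set.mem_ofPred_eq, Set.mem_iUnion, exists_prop]
  rw [h1]
  refine hM.biUnion fun F _ => Set.Subsingleton.countable ?_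
  intro x hx y hy
  exact hx.1 g x y hx.2 hy.2

/-- the constant function on `ω₂` with value `x` -/
theorem tv_const (hθ : Lg θ) (h : TV Δ M) {x : ↥(H θ)} (hx : x ∈ M) :
    ∃ F ∈ M, F.1 = gr zk (fun _ => x.1) := by
  let S : (Fin (1 + 2) → ↥(H θ)) → Prop := fun xs =>
    xs (Fin.last 2) = xs (Fin.castSucc (Fin.castSucc (0 : Fin 1)))
  have hS : Dfn Δ S := Dfn.eq _ _
  have hSy : ∀ ν y : ↥(H θ),
      S (Fin.snoc (Fin.snoc (fun _ : Fin 1 => x) ν : Fin (1 + 1) → ↥(H θ)) y) ↔ y = x := by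
    intro ν y
    show (Fin.snoc (Fin.snoc (fun _ : Fin 1 => x) ν : Fin (1 + 1) → ↥(H θ)) y :
        Fin (1 + 1 + 1) → ↥(H θ)) (Fin.last 2) =
      (Fin.snoc (Fin.snoc (fun _ : Fin 1 => x) ν : Fin (1 + 1) → ↥(H θ)) y :
        Fin (1 + 1 + 1) → ↥(H θ)) (Fin.castSucc (Fin.castSucc (0 : Fin 1))) ↔ y = x
    rw [Fin.snoc_castSucc, Fin.snoc_castSucc, Fin.snoc_last]
  obtain ⟨G, hG, hGp⟩ := tv_build hθ h hS (fun _ : Fin 1 => x) (fun _ => hx)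
    ⟨zk, H_zk hθ⟩ (tv_zk hθ h) (by
      intro ν y y' _ h1 h2
      rw [(hSy ν y).mp h1, (hSy ν y').mp h2])
  refine ⟨G, hG, ?_⟩
  apply ZFSet.ext
  intro p
  rw [mem_gr]
  constructor
  · intro hp
    obtain ⟨ν, y, h1, h2, h3⟩ := (hGp ⟨p, H.mem_trans G.2 hp⟩).mp hp
    rw [hSy] at h3
    subst h3
    exact ⟨ν.1, h2, h1⟩
  · rintro ⟨a, ha, rfl⟩
    have ha' : a ∈ H θ := H.mem_trans (H_zk hθ) ha
    exact (hGp ⟨_, H.pair hθ.1 ha' x.2⟩).mpr ⟨⟨a, ha'⟩, x, rfl, ha, (hSy _ _).mpr rfl⟩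

/-- the identity on `ω₂` -/
theorem tv_id (hθ : Lg θ) (h : TV Δ M) : ∃ F ∈ M, F.1 = gr zk (fun x => x) := by
  let S : (Fin (0 + 2) → ↥(H θ)) → Prop := fun xs =>
    xs (Fin.last 1) = xs (Fin.castSucc (Fin.last 0))
  have hS : Dfn Δ S := Dfn.eq _ _
  let x0 : Fin 0 → ↥(H θ) := fun i => i.elim0
  have hSy : ∀ ν y : ↥(H θ),
      S (Fin.snoc (Fin.snoc x0 ν : Fin (0 + 1) → ↥(H θ)) y) ↔ y = ν := by
    intro ν y
    show (Fin.snoc (Fin.snoc x0 ν : Fin (0 + 1) → ↥(H θ)) y :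
        Fin (0 + 1 + 1) → ↥(H θ)) (Fin.last 1) =
      (Fin.snoc (Fin.snoc x0 ν : Fin (0 + 1) → ↥(H θ)) y :
        Fin (0 + 1 + 1) → ↥(H θ)) (Fin.castSucc (Fin.last 0)) ↔ y = ν
    rw [Fin.snoc_castSucc, Fin.snoc_last, Fin.snoc_last]
  obtain ⟨G, hG, hGp⟩ := tv_build hθ h hS x0 (fun i => i.elim0)
    ⟨zk, H_zk hθ⟩ (tv_zk hθ h) (by
      intro ν y y' _ h1 h2
      rw [(hSy ν y).mp h1, (hSy ν y').mp h2])
  refine ⟨G, hG, ?_⟩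
  apply ZFSet.ext
  intro p
  rw [mem_gr]
  constructor
  · intro hp
    obtain ⟨ν, y, h1, h2, h3⟩ := (hGp ⟨p, H.mem_trans G.2 hp⟩).mp hp
    rw [hSy] at h3
    subst h3
    exact ⟨y.1, h2, h1⟩
  · rintro ⟨a, ha, rfl⟩
    have ha' : a ∈ H θ := H.mem_trans (H_zk hθ) ha
    exact (hGp ⟨_, H.pair hθ.1 ha' ha'⟩).mpr ⟨⟨a, ha'⟩, ⟨a, ha'⟩, rfl, ha, (hSy _ _).mpr rfl⟩

private theorem hull_fnl (hθ : Lg θ) {F : ↥(H θ)} {A : ZFSet.{0}} {f : ZFSet.{0} → ZFSet.{0}}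
    (hF : F.1 = gr A f) : Fnl F := by
  intro a b c hb hc
  rw [pIn_iff hθ.1, hF, pair_mem_gr] at hb hc
  exact Subtype.ext (hb.2.trans hc.2.symm)

theorem subset_hull (hθ : Lg θ) (h : TV Δ M) {g : ↥(H θ)} (hg : g.1 ∈ zk) : M ⊆ hull M g := by
  intro x hx
  obtain ⟨F, hF, hFe⟩ := tv_const hθ h hx
  refine ⟨F, hF, hull_fnl hθ hFe, ?_⟩
  rw [pIn_iff hθ.1, hFe, pair_mem_gr]
  exact ⟨hg, rfl⟩

theorem mem_hull (hθ : Lg θ) (h : TV Δ M) {g : ↥(H θ)} (hg : g.1 ∈ zk) : g ∈ hull M g := by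
  obtain ⟨F, hF, hFe⟩ := tv_id hθ h
  refine ⟨F, hF, hull_fnl hθ hFe, ?_⟩
  rw [pIn_iff hθ.1, hFe, pair_mem_gr]
  exact ⟨hg, rfl⟩

theorem hull_of_mem (hθ : Lg θ) (h : TV Δ M) {g : ↥(H θ)} (hg : g.1 ∈ zk) (hgM : g ∈ M) :
    hull M g = M := by
  apply Set.Subset.antisymm
  · rintro x ⟨F, hF, hFn, hFx⟩
    refine tv_app hθ h hF hgM ((pIn_iff hθ.1 _ _ _).mp hFx) ?_
    intro c hc
    exact hFn g c x ((pIn_iff hθ.1 _ _ _).mpr hc) hFx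
  · exact subset_hull hθ h hg

end Pool.MP_d8f801_lc.SC
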