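import Pool.Agent.Lib.MP_d8f801_lc.SC.H.Rel
import Pool.Agent.Lib.MP_d8f801_lc.SC.H.Abs2
import Pool.Agent.Lib.MP_4d8715_gt.KR.E.Deep

/-!
# SCH-TVx: elements of elementary submodels

`tv_exs`: induction on `n` (`Dfn.ex`, `TV.dfn`). `tv_uniq`: `TV.dfn`. The parameters: each of `∅`, `zw` is the only element of
`H θ` with a property given by a formula (`Kr.Emp`, `Kr.Omega`; formulas `fEmp`, `fOmega` of `E/Deep.lean` and `dfn_fml`, `a_emp`,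
`a_omega`, `z_emp`, `z_omega`). For `zo` and `zk` use `tv_param`: the formula is assumed to be given there; it is
`Sc.Omega1`/`Sc.Omega2` (`a_omega1`, `z_omega1`). `tv_suc`: `insert x x` is the only `y` with `Kr.Suc hmem y x`.
`tv_nat`: `zw_ind`. `tv_app`, `tv_app2`: `fApp`, `fApp2`.
-/

set_option autoImplicit false

namespace Pool.MP_d8f801_lc.SC

open Cardinal Ordinal Set FirstOrder
open Pool.Agent.Lib.MP_4d8715_gt.KR

variable {θ : Cardinal.{0}} {Δ : ↥(H θ) → ↥(H θ) → Prop} {M : Set ↥(H θ)}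

theorem tv_exs (h : TV Δ M) {n : ℕ} {P : (Fin n → ↥(H θ)) → Prop} (hP : Dfn Δ P)
    (hex : ∃ xs, P xs) : ∃ xs, (∀ i, xs i ∈ M) ∧ P xs := by
  induction n with
  | zero =>
    obtain ⟨xs, hxs⟩ := hex
    exact ⟨xs, fun i => i.elim0, hxs⟩
  | succ n ih =>
    obtain ⟨xs, hxs⟩ := hex
    have h1 : ∃ ys : Fin n → ↥(H θ), ∃ a, P (Fin.snoc ys a) :=
      ⟨Fin.init xs, xs (Fin.last n), by rw [Fin.snoc_init_self]; exact hxs⟩
    obtain ⟨ys, hys, a, ha⟩ := ih hP.ex h1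
    obtain ⟨b, hb, hb'⟩ := h.dfn hP ys hys a ha
    refine ⟨Fin.snoc ys b, ?_, hb'⟩
    intro i
    refine Fin.lastCases ?_ (fun j => ?_) i
    · rw [Fin.snoc_last]
      exact hb
    · rw [Fin.snoc_castSucc]
      exact hys j

theorem tv_uniq (h : TV Δ M) {n : ℕ} {P : (Fin (n + 1) → ↥(H θ)) → Prop} (hP : Dfn Δ P)
    (x : Fin n → ↥(H θ)) (hx : ∀ i, x i ∈ M) {a : ↥(H θ)} (ha : P (Fin.snoc x a))
    (hu : ∀ b, P (Fin.snoc x b) → b = a) : a ∈ M := by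
  obtain ⟨b, hb, hb'⟩ := h.dfn hP x hx a ha
  rw [← hu b hb']
  exact hb

private theorem TVx_uniq (h : TV Δ M) {n : ℕ} (φ : Fml (n + 1)) (x : Fin n → ↥(H θ))
    (hx : ∀ i, x i ∈ M) {a : ↥(H θ)} {Q : ↥(H θ) → Prop}
    (hQ : ∀ b, Fml.Sat hmem φ (Fin.snoc (α := fun _ => ↥(H θ)) x b) ↔ Q b) (ha : Q a)
    (hu : ∀ b, Q b → b = a) : a ∈ M :=
  tv_uniq h (dfn_fml φ) x hx ((hQ a).2 ha) fun b hb => hu b ((hQ b).1 hb)

theorem tv_empty (hθ : Lg θ) (h : TV Δ M) : (⟨∅, H_empty hθ⟩ : ↥(H θ)) ∈ M := by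
  refine TVx_uniq h (n := 0) (Fml.fEmp (Fin.last 0)) (fun i => i.elim0) (fun i => i.elim0)
    (Q := fun b => Kr.Emp hmem b) ?_ ?_ ?_
  · intro b
    rw [Fml.sat_fEmp, Fin.snoc_last]
  · exact (a_emp _).2 (z_emp.2 rfl)
  · intro b hb
    exact Subtype.ext (z_emp.1 ((a_emp b).1 hb))

theorem tv_zw (hθ : Lg θ) (h : TV Δ M) : (⟨zw, H_zw hθ⟩ : ↥(H θ)) ∈ M := by
  refine TVx_uniq h (n := 0) (Fml.fOmega (Fin.last 0)) (fun i => i.elim0) (fun i => i.elim0)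
    (Q := fun b => Kr.Omega hmem b) ?_ ?_ ?_
  · intro b
    rw [Fml.sat_fOmega, Fin.snoc_last]
  · exact (a_omega hθ _).2 (z_omega.2 rfl)
  · intro b hb
    exact Subtype.ext (z_omega.1 ((a_omega hθ b).1 hb))

theorem tv_suc (hθ : Lg θ) (h : TV Δ M) {x : ↥(H θ)} (hx : x ∈ M) :
    (⟨insert x.1 x.1, H_suc hθ x.2⟩ : ↥(H θ)) ∈ M := by
  refine TVx_uniq h (n := 1) (Fml.fSuc (Fin.last 1) (Fin.castSucc 0)) (fun _ => x) (fun _ => hx)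
    (Q := fun b => Kr.Suc hmem b x) ?_ ?_ ?_
  · intro b
    rw [Fml.sat_fSuc, Fin.snoc_last, Fin.snoc_castSucc]
  · exact (a_suc _ _).2 (z_suc.2 rfl)
  · intro b hb
    exact Subtype.ext (z_suc.1 ((a_suc b x).1 hb))

theorem tv_nat (hθ : Lg θ) (h : TV Δ M) {x : ↥(H θ)} (hx : x.1 ∈ zw) : x ∈ M := by
  have h1 : ∀ z : ZFSet.{0}, z ∈ zw → ∀ hz : z ∈ H θ, (⟨z, hz⟩ : ↥(H θ)) ∈ M := by
    intro z hz
    refine zw_ind (P := fun z => ∀ hz : z ∈ H θ, (⟨z, hz⟩ : ↥(H θ)) ∈ M) ?_ ?_ hz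
    · intro _
      exact tv_empty hθ h
    · intro y _ ih hy
      have hy' : y ∈ H θ := H.mem_trans hy (ZFSet.mem_insert y y)
      exact tv_suc hθ h (ih hy')
  exact h1 x.1 hx x.2

theorem tv_app (hθ : Lg θ) (h : TV Δ M) {f a b : ↥(H θ)} (hf : f ∈ M) (ha : a ∈ M)
    (hab : ZFSet.pair a.1 b.1 ∈ f.1)
    (hu : ∀ c : ↥(H θ), ZFSet.pair a.1 c.1 ∈ f.1 → c = b) : b ∈ M := by
  refine TVx_uniq h (n := 2) (Fml.fApp (Fin.castSucc 0) (Fin.castSucc 1) (Fin.last 2)) ![f, a]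
    (fun i => by fin_cases i; exacts [hf, ha]) (Q := fun c => Kr.App hmem f a c) ?_ ?_ ?_
  · intro c
    rw [Fml.sat_fApp, Fin.snoc_last, Fin.snoc_castSucc, Fin.snoc_castSucc]
    rfl
  · exact (a_app hθ f a b).2 (z_app.2 hab)
  · intro c hc
    exact hu c (z_app.1 ((a_app hθ f a c).1 hc))

theorem tv_app2 (hθ : Lg θ) (h : TV Δ M) {f a b c : ↥(H θ)} (hf : f ∈ M) (ha : a ∈ M) (hb : b ∈ M)
    (hab : ZFSet.pair (ZFSet.pair a.1 b.1) c.1 ∈ f.1)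
    (hu : ∀ d : ↥(H θ), ZFSet.pair (ZFSet.pair a.1 b.1) d.1 ∈ f.1 → d = c) : c ∈ M := by
  refine TVx_uniq h (n := 3) (Fml.fApp2 (Fin.castSucc 0) (Fin.castSucc 1) (Fin.castSucc 2)
    (Fin.last 3)) ![f, a, b]
    (fun i => by fin_cases i; exacts [hf, ha, hb]) (Q := fun d => Kr.App2 hmem f a b d) ?_ ?_ ?_
  · intro d
    rw [Fml.sat_fApp2, Fin.snoc_last, Fin.snoc_castSucc, Fin.snoc_castSucc, Fin.snoc_castSucc]
    rfl
  · exact (a_app2 hθ f a b c).2 (z_app2.2 hab)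
  · intro d hd
    exact hu d (z_app2.1 ((a_app2 hθ f a b d).1 hd))

end Pool.MP_d8f801_lc.SC
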