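import Pool.Agent.Lib.MP_d8f801_lc.SC.H.Hull

/-!
# SCH-Trace: the trace of the hull on `ω₂`

`valM_iff`, `→`: `f ∈ M` is functional (`fun_uniq`, `H_pair_right`), `v ∈ zk` (`mem_zk`). `←`: let `F ∈ M` be functional with
`PIn F g α.toZFSet`. By `tv_build` (parameters `F`, `zk`, `∅`; `K = zk`; `S` = `y ∈ zk` and `(ν, y) ∈ F`, or `y = ∅` and there is no
`y' ∈ zk` with `(ν, y') ∈ F`) there is a function `f : zk → zk` in `M` with `pair g α ∈ f`.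
`valM_bot`: `hull_of_mem` with `g = ∅`. `valM_sub`: `tv_app` in `M'`.
-/

set_option autoImplicit false

namespace Pool.MP_d8f801_lc.SC

open Cardinal Ordinal Set FirstOrder
open Pool.Agent.Lib.MP_4d8715_gt.KR

variable {θ : Cardinal.{0}} {Δ : ↥(H θ) → ↥(H θ) → Prop} {M : Set ↥(H θ)}

/-- the relation used for the extension of a functional relation to a function on `ω₂` -/
private def TS (v : Fin 5 → ↥(H θ)) : Prop :=
  ((v (Fin.last 4)).1 ∈ (v (1 : Fin 3).castSucc.castSucc).1 ∧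
    PIn (v (0 : Fin 3).castSucc.castSucc) (v (Fin.last 3).castSucc) (v (Fin.last 4))) ∨
  (v (Fin.last 4) = v (2 : Fin 3).castSucc.castSucc ∧
    ¬ ∃ z : ↥(H θ), z.1 ∈ (v (1 : Fin 3).castSucc.castSucc).1 ∧
      PIn (v (0 : Fin 3).castSucc.castSucc) (v (Fin.last 3).castSucc) z)

private theorem dfn_TS : Dfn Δ (TS (θ := θ)) := by
  refine Dfn.or ?_ ?_
  · exact (Dfn.mem _ _).and (dfn_in _ _ _)
  · refine (Dfn.eq _ _).and (Dfn.not ?_)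
    refine (Dfn.ex (P := fun ys : Fin 6 → ↥(H θ) =>
      (ys (Fin.last 5)).1 ∈ (ys (1 : Fin 3).castSucc.castSucc.castSucc).1 ∧
        PIn (ys (0 : Fin 3).castSucc.castSucc.castSucc) (ys (Fin.last 3).castSucc.castSucc)
          (ys (Fin.last 5))) ?_).congr ?_
    · exact (Dfn.mem _ _).and (dfn_in _ _ _)
    · intro xs
      simp only [Fin.snoc_last, Fin.snoc_castSucc]

private theorem TS_iff (F k e ν y : ↥(H θ)) :
    TS (Fin.snoc (Fin.snoc (![F, k, e] : Fin 3 → ↥(H θ)) ν : Fin 4 → ↥(H θ)) y : Fin 5 → ↥(H θ)) ↔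
      ((y.1 ∈ k.1 ∧ PIn F ν y) ∨ (y = e ∧ ¬ ∃ z : ↥(H θ), z.1 ∈ k.1 ∧ PIn F ν z)) := by
  unfold TS
  simp only [Fin.snoc_last, Fin.snoc_castSucc]
  exact Iff.rfl

theorem valM_iff (hθ : Lg θ) (h : TV Δ M) {g : ↥(H θ)} (hg : g.1 ∈ zk) (v : ZFSet.{0}) :
    valM M g.1 v ↔ ∃ α ∈ tr (hull M g) (ω_ 2), v = α.toZFSet := by
  constructor
  · rintro ⟨f, hfM, hf, hv⟩
    have hf1 := (funTo_iff.mp hf).1
    have hf2 := (funTo_iff.mp hf).2
    obtain ⟨α, hα, rfl⟩ := mem_zk.mp (hf2 _ _ hv)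
    have hvH : (α.toZFSet : ZFSet.{0}) ∈ H θ := H_pair_right (H.mem_trans f.2 hv)
    refine ⟨α, ⟨hα, ⟨α.toZFSet, hvH⟩, ⟨f, hfM, ?_, ?_⟩, rfl⟩, rfl⟩
    · intro a b c hab hac
      rw [pIn_iff hθ.1] at hab hac
      exact Subtype.ext (fun_uniq hf1 hab hac)
    · rw [pIn_iff hθ.1]
      exact hv
  · rintro ⟨α, ⟨hα, x, ⟨F, hFM, hF, hFx⟩, hx⟩, rfl⟩
    have hxk : x.1 ∈ zk := by
      rw [mem_zk]
      exact ⟨α, hα, hx⟩
    let k : ↥(H θ) := ⟨zk, H_zk hθ⟩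
    let e : ↥(H θ) := ⟨∅, H_empty hθ⟩
    have hek : e.1 ∈ k.1 := empty_mem_zk
    have hpar : ∀ i, (![F, k, e] : Fin 3 → ↥(H θ)) i ∈ M := by
      intro i
      fin_cases i
      · exact hFM
      · exact tv_zk hθ h
      · exact tv_empty hθ h
    have hfun : ∀ ν y y' : ↥(H θ), ν.1 ∈ k.1 →
        TS (Fin.snoc (Fin.snoc (![F, k, e] : Fin 3 → ↥(H θ)) ν : Fin 4 → ↥(H θ)) y : Fin 5 → ↥(H θ)) →
        TS (Fin.snoc (Fin.snoc (![F, k, e] : Fin 3 → ↥(H θ)) ν : Fin 4 → ↥(H θ)) y' : Fin 5 → ↥(H θ)) →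
        y = y' := by
      intro ν y y' _ h1 h2
      rw [TS_iff] at h1 h2
      rcases h1 with h1 | h1 <;> rcases h2 with h2 | h2
      · exact hF _ _ _ h1.2 h2.2
      · exact absurd ⟨y, h1⟩ h2.2
      · exact absurd ⟨y', h2⟩ h1.2
      · rw [h1.1, h2.1]
    obtain ⟨G, hGM, hG⟩ := tv_build hθ h (dfn_TS (Δ := Δ)) ![F, k, e] hpar k (tv_zk hθ h) hfun
    have hGp : ∀ c d : ↥(H θ), ZFSet.pair c.1 d.1 ∈ G.1 ↔ c.1 ∈ zk ∧
        ((d.1 ∈ k.1 ∧ PIn F c d) ∨ (d = e ∧ ¬ ∃ z : ↥(H θ), z.1 ∈ k.1 ∧ PIn F c z)) := by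
      intro c d
      have h1 := hG ⟨ZFSet.pair c.1 d.1, H.pair hθ.1 c.2 d.2⟩
      rw [h1]
      constructor
      · rintro ⟨ν, y, h2, h3, h4⟩
        simp only at h2
        rw [ZFSet.pair_inj] at h2
        have e1 : c = ν := Subtype.ext h2.1
        have e2 : d = y := Subtype.ext h2.2
        subst e1
        subst e2
        exact ⟨h3, (TS_iff F k e c d).mp h4⟩
      · rintro ⟨h3, h4⟩
        exact ⟨c, d, rfl, h3, (TS_iff F k e c d).mpr h4⟩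
    refine ⟨G, hGM, ?_, ?_⟩
    · rw [funTo_iff, funOn_iff]
      refine ⟨⟨?_, ?_⟩, ?_⟩
      · intro p hp
        obtain ⟨ν, y, h1, h2, _⟩ := (hG ⟨p, H.mem_trans G.2 hp⟩).mp hp
        exact ⟨ν.1, y.1, h2, h1⟩
      · intro a ha
        have haH : a ∈ H θ := H.mem_trans (H_zk hθ) ha
        by_cases hz : ∃ z : ↥(H θ), z.1 ∈ k.1 ∧ PIn F ⟨a, haH⟩ z
        · obtain ⟨z, hz1, hz2⟩ := hz
          refine ⟨z.1, fun c => ⟨fun hc => ?_, fun hc => ?_⟩⟩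
          · have hcH : c ∈ H θ := H_pair_right (H.mem_trans G.2 hc)
            have h3 := (hGp ⟨a, haH⟩ ⟨c, hcH⟩).mp hc
            rcases h3.2 with h4 | h4
            · exact congrArg Subtype.val (hF _ _ _ h4.2 hz2)
            · exact absurd ⟨z, hz1, hz2⟩ h4.2
          · subst hc
            exact (hGp ⟨a, haH⟩ z).mpr ⟨ha, Or.inl ⟨hz1, hz2⟩⟩
        · refine ⟨e.1, fun c => ⟨fun hc => ?_, fun hc => ?_⟩⟩
          · have hcH : c ∈ H θ := H_pair_right (H.mem_trans G.2 hc)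
            have h3 := (hGp ⟨a, haH⟩ ⟨c, hcH⟩).mp hc
            rcases h3.2 with h4 | h4
            · exact absurd ⟨_, h4⟩ hz
            · exact congrArg Subtype.val h4.1
          · subst hc
            exact (hGp ⟨a, haH⟩ e).mpr ⟨ha, Or.inr ⟨rfl, hz⟩⟩
      · intro a b hab
        have haH : a ∈ H θ := H_pair_left (H.mem_trans G.2 hab)
        have hbH : b ∈ H θ := H_pair_right (H.mem_trans G.2 hab)
        rcases ((hGp ⟨a, haH⟩ ⟨b, hbH⟩).mp hab).2 with h4 | h4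
        · exact h4.1
        · have h5 : b = e.1 := congrArg Subtype.val h4.1
          rw [h5]
          exact hek
    · rw [← hx]
      exact (hGp g x).mpr ⟨hg, Or.inl ⟨hxk, hFx⟩⟩

theorem valM_bot (hθ : Lg θ) (h : TV Δ M) (v : ZFSet.{0}) :
    valM M ∅ v ↔ ∃ α ∈ tr M (ω_ 2), v = α.toZFSet := by
  have h1 := valM_iff hθ h (g := ⟨∅, H_empty hθ⟩) empty_mem_zk v
  rw [hull_of_mem hθ h (g := ⟨∅, H_empty hθ⟩) empty_mem_zk (tv_empty hθ h)] at h1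
  exact h1

theorem valM_sub (hθ : Lg θ) {M' : Set ↥(H θ)} (h' : TV Δ M') (hM : M ⊆ M') {g : ↥(H θ)}
    (hg : g ∈ M') {v : ZFSet.{0}} (hv : valM M g.1 v) : ∃ α ∈ tr M' (ω_ 2), v = α.toZFSet := by
  obtain ⟨f, hfM, hf, hfv⟩ := hv
  have hf1 := (funTo_iff.mp hf).1
  have hf2 := (funTo_iff.mp hf).2
  obtain ⟨α, hα, rfl⟩ := mem_zk.mp (hf2 _ _ hfv)
  have hvH : (α.toZFSet : ZFSet.{0}) ∈ H θ := H_pair_right (H.mem_trans f.2 hfv)
  have hb : (⟨α.toZFSet, hvH⟩ : ↥(H θ)) ∈ M' :=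
    tv_app hθ h' (hM hfM) hg hfv (fun c hc => Subtype.ext (fun_uniq hf1 hc hfv))
  exact ⟨α, ⟨hα, ⟨α.toZFSet, hvH⟩, hb, rfl⟩, rfl⟩

end Pool.MP_d8f801_lc.SC
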