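import Pool.Agent.Lib.MP_d8f801_lc.SC.H.Defs

/-!
# SCH-ZBasic: the basic notions in `ZFSet`

Unfold the definitions; `ZFSet.ext`, `ZFSet.mem_pair`, `ZFSet.pair = {{a}, {a, b}}`, `ZFSet.mem_insert_iff`.
`z_ord`: `ZFSet.isOrdinal_iff_forall_mem_isTransitive`, `ZFSet.isTransitive_iff_mem_trans`.
-/

set_option autoImplicit false

namespace Pool.MP_d8f801_lc.SC

open Cardinal Ordinal Set FirstOrder
open Pool.Agent.Lib.MP_4d8715_gt.KR

theorem z_sub {x y : ZFSet.{0}} : Kr.Sub zmem x y ↔ x ⊆ y :=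
  ⟨fun h z hz => h z hz, fun h _ hz => h hz⟩

theorem z_upair {p a b : ZFSet.{0}} : Kr.UPair zmem p a b ↔ p = {a, b} := by
  constructor
  · intro h
    refine ZFSet.ext fun z => ?_
    rw [ZFSet.mem_pair]
    exact h z
  · rintro rfl z
    exact ZFSet.mem_pair

private theorem zb_aa (a : ZFSet.{0}) : ({a, a} : ZFSet.{0}) = {a} := by
  refine ZFSet.ext fun z => ?_
  rw [ZFSet.mem_pair, ZFSet.mem_singleton, or_self]

theorem z_pair {p a b : ZFSet.{0}} : Kr.Pair zmem p a b ↔ p = ZFSet.pair a b := by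
  constructor
  · rintro ⟨u, v, hu, hv, hp⟩
    rw [z_upair] at hu hv hp
    rw [hp, hu, hv, zb_aa]
    rfl
  · rintro rfl
    refine ⟨{a, a}, {a, b}, z_upair.2 rfl, z_upair.2 rfl, z_upair.2 ?_⟩
    rw [zb_aa]
    rfl

theorem z_app {f a b : ZFSet.{0}} : Kr.App zmem f a b ↔ ZFSet.pair a b ∈ f := by
  constructor
  · rintro ⟨p, hp, hf⟩
    rw [z_pair] at hp
    rw [← hp]
    exact hf
  · intro h
    exact ⟨_, z_pair.2 rfl, h⟩

theorem z_app2 {f a b c : ZFSet.{0}} :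
    Kr.App2 zmem f a b c ↔ ZFSet.pair (ZFSet.pair a b) c ∈ f := by
  constructor
  · rintro ⟨p, hp, hf⟩
    rw [z_pair] at hp
    rw [z_app] at hf
    rw [← hp]
    exact hf
  · intro h
    exact ⟨_, z_pair.2 rfl, z_app.2 h⟩

theorem z_emp {x : ZFSet.{0}} : Kr.Emp zmem x ↔ x = ∅ := by
  constructor
  · intro h
    exact (ZFSet.eq_empty x).2 fun z => h z
  · rintro rfl z hz
    exact ZFSet.notMem_empty z hz

theorem z_suc {y x : ZFSet.{0}} : Kr.Suc zmem y x ↔ y = insert x x := by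
  constructor
  · intro h
    refine ZFSet.ext fun z => ?_
    rw [ZFSet.mem_insert_iff, or_comm]
    exact h z
  · rintro rfl z
    exact ZFSet.mem_insert_iff.trans or_comm

theorem z_ord {x : ZFSet.{0}} : Sc.Ord zmem x ↔ x.IsOrdinal := by
  rw [ZFSet.isOrdinal_iff_forall_mem_isTransitive]
  have key : ∀ z : ZFSet.{0}, Sc.Trans zmem z ↔ z.IsTransitive := fun z =>
    ⟨fun h u hu v hv => h u v hu hv, fun h u v hu hv => h u hu hv⟩
  constructor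
  · rintro ⟨h1, h2⟩
    exact ⟨(key x).1 h1, fun y hy => (key y).1 (h2 y hy)⟩
  · rintro ⟨h1, h2⟩
    exact ⟨(key x).2 h1, fun y hy => (key y).2 (h2 y hy)⟩

/-- a criterion -/
theorem funOn_iff {f d : ZFSet.{0}} : Kr.FunOn zmem f d ↔
    (∀ p ∈ f, ∃ a b, a ∈ d ∧ p = ZFSet.pair a b) ∧
      ∀ a ∈ d, ∃ b, ∀ c, ZFSet.pair a c ∈ f ↔ c = b := by
  constructor
  · rintro ⟨h1, h2⟩
    refine ⟨fun p hp => ?_, fun a ha => ?_⟩
    · obtain ⟨a, b, ha, hab⟩ := h1 p hp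
      exact ⟨a, b, ha, z_pair.1 hab⟩
    · obtain ⟨b, hb⟩ := h2 a ha
      exact ⟨b, fun c => z_app.symm.trans (hb c)⟩
  · rintro ⟨h1, h2⟩
    refine ⟨fun p hp => ?_, fun a ha => ?_⟩
    · obtain ⟨a, b, ha, hab⟩ := h1 p hp
      exact ⟨a, b, ha, z_pair.2 hab⟩
    · obtain ⟨b, hb⟩ := h2 a ha
      exact ⟨b, fun c => z_app.trans (hb c)⟩

/-- functions: the arguments are in the domain -/
theorem fun_dom {f d a b : ZFSet.{0}} (h : Kr.FunOn zmem f d) (h1 : ZFSet.pair a b ∈ f) :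
    a ∈ d := by
  obtain ⟨a', b', ha, hab⟩ := (funOn_iff.1 h).1 _ h1
  rw [ZFSet.pair_inj] at hab
  rw [hab.1]
  exact ha

/-- functions: uniqueness of values -/
theorem fun_uniq {f d a b c : ZFSet.{0}} (h : Kr.FunOn zmem f d) (h1 : ZFSet.pair a b ∈ f)
    (h2 : ZFSet.pair a c ∈ f) : b = c := by
  obtain ⟨v, hv⟩ := (funOn_iff.1 h).2 a (fun_dom h h1)
  rw [(hv b).1 h1, (hv c).1 h2]

/-- functions: existence of values -/
theorem fun_ex {f d a : ZFSet.{0}} (h : Kr.FunOn zmem f d) (h1 : a ∈ d) :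
    ∃ b, ZFSet.pair a b ∈ f := by
  obtain ⟨v, hv⟩ := (funOn_iff.1 h).2 a h1
  exact ⟨v, (hv v).2 rfl⟩

theorem funTo_iff {f d r : ZFSet.{0}} : Kr.FunTo zmem f d r ↔
    Kr.FunOn zmem f d ∧ ∀ a b, ZFSet.pair a b ∈ f → b ∈ r := by
  constructor
  · rintro ⟨h1, h2⟩
    exact ⟨h1, fun a b hab => h2 a b (z_app.2 hab)⟩
  · rintro ⟨h1, h2⟩
    exact ⟨h1, fun a b hab => h2 a b (z_app.1 hab)⟩

/-- extensionality for functions -/
theorem fun_ext {f f' d : ZFSet.{0}} (h : Kr.FunOn zmem f d) (h' : Kr.FunOn zmem f' d)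
    (hh : ∀ a b, ZFSet.pair a b ∈ f → ZFSet.pair a b ∈ f') : f = f' := by
  refine ZFSet.ext fun p => ⟨fun hp => ?_, fun hp => ?_⟩
  · obtain ⟨a, b, ha, rfl⟩ := (funOn_iff.1 h).1 p hp
    exact hh a b hp
  · obtain ⟨a, b, ha, rfl⟩ := (funOn_iff.1 h').1 p hp
    obtain ⟨c, hc⟩ := fun_ex h ha
    rw [fun_uniq h' hp (hh a c hc)]
    exact hc

end Pool.MP_d8f801_lc.SC
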