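import Pool.Agent.Lib.MP_d8f801_lc.SC.H.Graph

/-!
# SCH-ZCov: covering and cardinality

`→`: choose for each `z ∈ b` some `i ∈ a` with `pair i z ∈ f`; this is injective (`fun_uniq`). Compare
`#↥b ≤ #↥a` and use `ZFSet.cardinalMk_coe_sort`, `Cardinal.lift_le`. `←`: if `b = ∅` take `gr a (fun _ => ∅)`. Otherwise there is
an injection `b → a`, hence a surjection `a → b`; take its graph (`gr`).
-/

set_option autoImplicit false

namespace Pool.MP_d8f801_lc.SC

open Cardinal Ordinal Set FirstOrder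
open Pool.Agent.Lib.MP_4d8715_gt.KR

open Classical in
private theorem cov_aux {a b : ZFSet.{0}} (h : b.card ≤ a.card) (hb : b ≠ ∅) :
    ∃ g : ZFSet.{0} → ZFSet.{0}, (∀ x ∈ a, g x ∈ b) ∧ ∀ z ∈ b, ∃ x ∈ a, g x = z := by
  have h1 : #(↥b) ≤ #(↥a) := by
    rwa [ZFSet.cardinalMk_coe_sort, ZFSet.cardinalMk_coe_sort, Cardinal.lift_le]
  obtain ⟨e⟩ := h1
  obtain ⟨b0, hb0⟩ := (ZFSet.nonempty_def b).mp ((ZFSet.eq_empty_or_nonempty b).resolve_left hb)
  let g : ZFSet.{0} → ZFSet.{0} := fun x =>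
    if h : ∃ z : ↥b, (e z).1 = x then (Classical.choose h).1 else b0
  refine ⟨g, ?_, ?_⟩
  · intro x _
    by_cases hx : ∃ z : ↥b, (e z).1 = x
    · have h2 : g x = (Classical.choose hx).1 := dif_pos hx
      rw [h2]
      exact (Classical.choose hx).2
    · have h2 : g x = b0 := dif_neg hx
      rw [h2]
      exact hb0
  · intro z hz
    refine ⟨(e ⟨z, hz⟩).1, (e ⟨z, hz⟩).2, ?_⟩
    have hx : ∃ z' : ↥b, (e z').1 = (e ⟨z, hz⟩).1 := ⟨_, rfl⟩
    have h2 : g (e ⟨z, hz⟩).1 = (Classical.choose hx).1 := dif_pos hx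
    rw [h2]
    have h3 := Classical.choose_spec hx
    have h4 := e.injective (Subtype.ext h3)
    rw [h4]

theorem z_cov {a b : ZFSet.{0}} : Sc.Cov zmem a b ↔ b.card ≤ a.card := by
  constructor
  · rintro ⟨f, hf, hcov⟩
    have h1 : ∀ z : ↥b, ∃ i : ↥a, ZFSet.pair i.1 z.1 ∈ f := by
      intro z
      obtain ⟨i, hi, hiz⟩ := hcov z.1 z.2
      exact ⟨⟨i, hi⟩, z_app.mp hiz⟩
    choose F hF using h1
    have hinj : Function.Injective F := by
      intro z z' hzz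
      have h2 := hF z
      rw [hzz] at h2
      exact Subtype.ext (fun_uniq hf h2 (hF z'))
    have h3 := Cardinal.mk_le_of_injective hinj
    rwa [ZFSet.cardinalMk_coe_sort, ZFSet.cardinalMk_coe_sort, Cardinal.lift_le] at h3
  · intro h
    by_cases hb : b = ∅
    · refine ⟨gr a (fun _ => ∅), gr_funOn, ?_⟩
      intro z hz
      rw [hb] at hz
      exact absurd hz (ZFSet.notMem_empty z)
    · obtain ⟨g, _, hg2⟩ := cov_aux h hb
      refine ⟨gr a g, gr_funOn, ?_⟩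
      intro z hz
      obtain ⟨x, hx, hxz⟩ := hg2 z hz
      exact ⟨x, hx, z_app.mpr (pair_mem_gr.mpr ⟨hx, hxz.symm⟩)⟩

/-- a covering function with values in `b`, if `b` is not empty -/
theorem cov_to {a b : ZFSet.{0}} (h : Sc.Cov zmem a b) (hb : b ≠ ∅) :
    ∃ g : ZFSet.{0} → ZFSet.{0}, (∀ x ∈ a, g x ∈ b) ∧ ∀ z ∈ b, ∃ x ∈ a, g x = z :=
  cov_aux (z_cov.mp h) hb

end Pool.MP_d8f801_lc.SC
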